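import Mathlib
import Pool.Agent.KS6_29.HF.Line1

/-!
# The heat flow on a horizontal line

`f` is the restriction of the function to a horizontal line, `D = f' / f` for `σ > a - η`.
-/

set_option autoImplicit false

namespace Pool.Agent.KS6_29.HS

open MeasureTheory Set Filter Topology

/-- The data on a horizontal line. -/
structure Line (f D : ℝ → ℂ) (a η B lam N : ℝ) : Prop where
  ha : 1 / 2 ≤ a
  hη : 0 < η
  hη4 : η ≤ 1 / 4
  hB : 1 ≤ B
  hN : 1 ≤ N
  hl : 0 ≤ lam
  even : ∀ σ, ‖f (-σ)‖ = ‖f σ‖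
  diff : Differentiable ℝ f
  cont : Continuous (deriv f)
  ne : ∀ σ, a - η < σ → f σ ≠ 0
  logd : ∀ σ, a - η < σ → HasDerivAt f (D σ * f σ) σ
  Dd : ∀ σ, a - η < σ → DifferentiableAt ℝ D σ
  Db : ∀ σ, a - η < σ → ‖deriv D σ‖ ≤ B
  im : ∀ σ, a - η < σ → |(D σ).im| ≤ B
  re : ∀ σ, a - η < σ → lam ≤ (D σ).re
  mid : ∀ σ, |σ| ≤ a → ‖f σ‖ ≤ N * ‖f a‖
  grow : ∃ M : ℝ, ∀ σ, ‖f σ‖ ≤ M * Real.exp (B * σ ^ 2)
  growd : ∃ M : ℝ, ∀ σ, ‖deriv f σ‖ ≤ M * Real.exp (B * σ ^ 2)

/-- The Gaussian weight. -/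
noncomputable def gw (t v : ℝ) : ℝ := Real.exp (-v ^ 2 / (4 * t))

lemma gw_pos (t v : ℝ) : 0 < gw t v := Real.exp_pos _

lemma gw_le_one {t : ℝ} (ht : 0 < t) (v : ℝ) : gw t v ≤ 1 := by
  unfold gw
  rw [← Real.exp_zero]
  apply Real.exp_le_exp.2
  apply div_nonpos_of_nonpos_of_nonneg
  · nlinarith [sq_nonneg v]
  · positivity

@[fun_prop]
lemma gw_cont (t : ℝ) : Continuous (gw t) := by
  unfold gw; fun_prop

lemma poly_le (x : ℝ) : (1 + x ^ 2) ^ 2 ≤ 5 * Real.exp (x ^ 2) := by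
  have h1 : x ^ 2 ≤ Real.exp (x ^ 2) := by linarith [Real.add_one_le_exp (x ^ 2)]
  have h2 : (x ^ 2) ^ 2 / 2 ≤ Real.exp (x ^ 2) := by
    have := Real.quadratic_le_exp_of_nonneg (sq_nonneg x)
    nlinarith [sq_nonneg x]
  have h3 : 1 ≤ Real.exp (x ^ 2) := Real.one_le_exp (sq_nonneg x)
  nlinarith

/-- integrability of the Gaussian weight times a function of moderate growth -/
theorem integ {B M t C : ℝ} {f : ℝ → ℂ} (hB : 1 ≤ B) (ht : 0 < t) (htB : 16 * (B + 1) * t ≤ 1)
    (hf : Continuous f) (hM : ∀ σ, ‖f σ‖ ≤ M * Real.exp (B * σ ^ 2)) (y : ℝ) {q : ℝ → ℂ}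
    (hq : Continuous q) (hqC : ∀ v, ‖q v‖ ≤ C * (1 + v ^ 2) ^ 2) :
    Integrable (fun v => q v * ((gw t v : ℂ) * f (y + v))) := by
  have hM0 : 0 ≤ M := by
    have := (norm_nonneg _).trans (hM 0)
    simpa using this
  have hC0 : 0 ≤ C := by
    have := (norm_nonneg _).trans (hqC 0)
    simpa using this
  have hg : Integrable (fun v : ℝ => 5 * C * M * Real.exp (2 * B * y ^ 2) * Real.exp (-1 * v ^ 2)) :=
    (integrable_exp_neg_mul_sq (by norm_num)).const_mul _
  refine Integrable.mono' hg (by fun_prop) (Eventually.of_forall fun v => ?_)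
  rw [norm_mul, norm_mul, Complex.norm_real, Real.norm_of_nonneg (gw_pos t v).le]
  have h1 : gw t v ≤ Real.exp (-(4 * (B + 1)) * v ^ 2) := by
    unfold gw
    apply Real.exp_le_exp.2
    rw [div_le_iff₀ (by positivity)]
    nlinarith [sq_nonneg v, mul_le_mul_of_nonneg_right htB (sq_nonneg v)]
  have h2 : ‖f (y + v)‖ ≤ M * Real.exp (2 * B * y ^ 2 + 2 * B * v ^ 2) := by
    refine (hM _).trans (mul_le_mul_of_nonneg_left (Real.exp_le_exp.2 ?_) hM0)
    nlinarith [sq_nonneg (y - v)]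
  have h3 : ‖q v‖ ≤ C * (5 * Real.exp (v ^ 2)) := (hqC v).trans (mul_le_mul_of_nonneg_left (poly_le v) hC0)
  calc ‖q v‖ * (gw t v * ‖f (y + v)‖) ≤ (C * (5 * Real.exp (v ^ 2))) *
      (Real.exp (-(4 * (B + 1)) * v ^ 2) * (M * Real.exp (2 * B * y ^ 2 + 2 * B * v ^ 2))) := by
        have hg0 := (gw_pos t v).le
        exact mul_le_mul h3 (mul_le_mul h1 h2 (norm_nonneg _) (Real.exp_pos _).le) (by positivity)
          (by positivity)
    _ = 5 * C * M * Real.exp (2 * B * y ^ 2) * (Real.exp (v ^ 2) * Real.exp (-(4 * (B + 1)) * v ^ 2) *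
        Real.exp (2 * B * v ^ 2)) := by
        rw [Real.exp_add]; ring
    _ ≤ 5 * C * M * Real.exp (2 * B * y ^ 2) * Real.exp (-1 * v ^ 2) := by
        rw [← Real.exp_add, ← Real.exp_add]
        refine mul_le_mul_of_nonneg_left (Real.exp_le_exp.2 ?_) (by positivity)
        nlinarith [sq_nonneg v, mul_nonneg (by linarith : 0 ≤ B - 1) (sq_nonneg v)]

variable {f D : ℝ → ℂ} {a η B lam N t y : ℝ}

namespace Line

theorem grow_pos (L : Line f D a η B lam N) : ∃ M : ℝ, 0 < M ∧ ∀ σ, ‖f σ‖ ≤ M * Real.exp (B * σ ^ 2) := by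
  obtain ⟨M, hM⟩ := L.grow
  refine ⟨max M 1, by positivity, fun σ => (hM σ).trans ?_⟩
  exact mul_le_mul_of_nonneg_right (le_max_left _ _) (Real.exp_pos _).le

theorem int (L : Line f D a η B lam N) (ht : 0 < t) (htB : 16 * (B + 1) * t ≤ 1) (y : ℝ) {q : ℝ → ℂ}
    {C : ℝ} (hq : Continuous q) (hqC : ∀ v, ‖q v‖ ≤ C * (1 + v ^ 2) ^ 2) :
    Integrable (fun v => q v * ((gw t v : ℂ) * f (y + v))) := by
  obtain ⟨M, hM⟩ := L.grow
  exact integ L.hB ht htB L.diff.continuous hM y hq hqC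

theorem int0 (L : Line f D a η B lam N) (ht : 0 < t) (htB : 16 * (B + 1) * t ≤ 1) (y : ℝ) :
    Integrable (fun v => (gw t v : ℂ) * f (y + v)) := by
  have := L.int ht htB y (q := fun _ => 1) (C := 1) continuous_const (fun v => by
    simp only [norm_one, one_mul]
    nlinarith [sq_nonneg v])
  simpa using this

theorem int1 (L : Line f D a η B lam N) (ht : 0 < t) (htB : 16 * (B + 1) * t ≤ 1) (y : ℝ) :
    Integrable (fun v : ℝ => (v : ℂ) * ((gw t v : ℂ) * f (y + v))) := by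
  refine L.int ht htB y (q := fun v => (v : ℂ)) (C := 1) (by fun_prop) (fun v => ?_)
  rw [Complex.norm_real, Real.norm_eq_abs]
  nlinarith [sq_nonneg v, sq_abs v, abs_nonneg v, sq_nonneg (|v| - 1)]

/-- the exponential formula -/
theorem exp_form (L : Line f D a η B lam N) {c : ℝ} (hc : a - η < c) {σ : ℝ} (hσ : a - η < σ) :
    f σ = f c * Complex.exp (∫ u in c..σ, D u) := by
  have hDc : ContinuousOn D (Ioi (a - η)) := fun u hu => (L.Dd u hu).continuousAt.continuousWithinAt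
  have hsub : ∀ u v, a - η < u → a - η < v → uIcc u v ⊆ Ioi (a - η) := by
    intro u v hu hv w hw
    rw [mem_uIcc] at hw
    rcases hw with h | h
    · exact lt_of_lt_of_le hu h.1
    · exact lt_of_lt_of_le hv h.1
  have hd : ∀ v, a - η < v → HasDerivAt (fun v => ∫ u in c..v, D u) (D v) v := by
    intro v hv
    apply intervalIntegral.integral_hasDerivAt_right
    · exact (hDc.mono (hsub c v hc hv)).intervalIntegrable
    · exact hDc.stronglyMeasurableAtFilter isOpen_Ioi v hv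
    · exact (L.Dd v hv).continuousAt
  have hd2 : ∀ v, a - η < v → HasDerivAt (fun v => f v * Complex.exp (-∫ u in c..v, D u)) 0 v := by
    intro v hv
    have h1 := L.logd v hv
    have h2 := ((hd v hv).neg).cexp
    have h3 := h1.mul h2
    have e : D v * f v * Complex.exp (-∫ u in c..v, D u) +
        f v * (Complex.exp (-∫ u in c..v, D u) * -D v) = 0 := by ring
    rw [← e]; exact h3
  have hconst : f σ * Complex.exp (-∫ u in c..σ, D u) = f c * Complex.exp (-∫ u in c..c, D u) := by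
    have hcv : Convex ℝ (Ioi (a - η)) := convex_Ioi _
    refine hcv.is_const_of_fderivWithin_eq_zero (𝕜 := ℝ)
      (f := fun v => f v * Complex.exp (-∫ u in c..v, D u)) ?_ ?_ hσ hc
    · intro v hv
      exact (hd2 v hv).differentiableAt.differentiableWithinAt
    · intro v hv
      have h1 : HasFDerivAt (fun v => f v * Complex.exp (-∫ u in c..v, D u)) (0 : ℝ →L[ℝ] ℂ) v := by
        have := (hd2 v hv).hasFDerivAt
        have e0 : ContinuousLinearMap.toSpanSingleton ℝ (0 : ℂ) = 0 := by ext; simp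
        rwa [e0] at this
      rw [fderivWithin_of_isOpen isOpen_Ioi hv]
      exact h1.fderiv
  rw [intervalIntegral.integral_same, neg_zero, Complex.exp_zero, mul_one] at hconst
  rw [← hconst, mul_assoc, ← Complex.exp_add]
  simp

/-- lower bound for the growth to the right -/
theorem mono (L : Line f D a η B lam N) {c σ : ℝ} (hc : a ≤ c) (hσ : c ≤ σ) :
    ‖f c‖ * Real.exp (lam * (σ - c)) ≤ ‖f σ‖ := by
  have hη := L.hη
  rw [L.exp_form (by linarith : a - η < c) (by linarith : a - η < σ), norm_mul, Complex.norm_exp]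
  refine mul_le_mul_of_nonneg_left (Real.exp_le_exp.2 ?_) (norm_nonneg _)
  have hDc : ContinuousOn D (Icc c σ) := fun u hu =>
    (L.Dd u (by linarith [hu.1])).continuousAt.continuousWithinAt
  have hi : IntervalIntegrable D volume c σ := by
    rw [← uIcc_of_le hσ] at hDc; exact hDc.intervalIntegrable
  have h1 : (∫ u in c..σ, D u).re = ∫ u in c..σ, (D u).re := by
    rw [← Complex.reCLM_apply, ← ContinuousLinearMap.intervalIntegral_comp_comm _ hi]
    simp
  rw [h1]
  have h2 : ∫ u in c..σ, lam ≤ ∫ u in c..σ, (D u).re := by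
    apply intervalIntegral.integral_mono_on hσ (by simp)
    · have : ContinuousOn (fun u => (D u).re) (uIcc c σ) := by
        rw [uIcc_of_le hσ]; exact Complex.continuous_re.comp_continuousOn hDc
      exact this.intervalIntegrable
    · intro u hu
      exact L.re u (by linarith [hu.1])
  rw [intervalIntegral.integral_const, smul_eq_mul] at h2
  linarith

theorem le_of_abs (L : Line f D a η B lam N) {c σ : ℝ} (hc : a ≤ c) (hσ : |σ| ≤ c) :
    ‖f σ‖ ≤ N * ‖f c‖ := by
  have hN := L.hN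
  have e : ‖f σ‖ = ‖f |σ|‖ := by
    rcases abs_cases σ with ⟨h, _⟩ | ⟨h, _⟩
    · rw [h]
    · rw [h, L.even]
  rw [e]
  by_cases h : a ≤ |σ|
  · have h1 := L.mono h hσ
    have h2 : (1 : ℝ) ≤ Real.exp (lam * (c - |σ|)) :=
      Real.one_le_exp (mul_nonneg L.hl (by linarith))
    have h3 : ‖f |σ|‖ ≤ ‖f c‖ := by nlinarith [norm_nonneg (f |σ|)]
    nlinarith [norm_nonneg (f c)]
  · push Not at h
    have h1 := L.mid |σ| (by rw [abs_abs]; exact h.le)
    have h2 := L.mono le_rfl hc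
    have h3 : (1 : ℝ) ≤ Real.exp (lam * (c - a)) := Real.one_le_exp (mul_nonneg L.hl (by linarith))
    have h4 : ‖f a‖ ≤ ‖f c‖ := by nlinarith [norm_nonneg (f a)]
    exact h1.trans (mul_le_mul_of_nonneg_left h4 (by linarith))

end Line

end Pool.Agent.KS6_29.HS
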