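import Mathlib
import Pool.Agent.KS6_29.HS.Line2

/-!
# The main part of the integral
-/

set_option autoImplicit false

namespace Pool.Agent.KS6_29.HS

open MeasureTheory Set Filter Topology

variable {f D : ℝ → ℂ} {a η B lam N t y β : ℝ}

theorem hasDerivAt_re {g : ℝ → ℂ} {g' : ℂ} {v : ℝ} (h : HasDerivAt g g' v) :
    HasDerivAt (fun v => (g v).re) g'.re v := by
  have := Complex.reCLM.hasFDerivAt.comp_hasDerivAt v h
  exact this

theorem hasDerivAt_sq_div {t v : ℝ} (ht : 0 < t) :
    HasDerivAt (fun v : ℝ => v ^ 2 / (4 * t)) (v / (2 * t)) v := by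
  have := ((hasDerivAt_pow 2 v).div_const (4 * t))
  have e : ((2 : ℕ) : ℝ) * v ^ (2 - 1) / (4 * t) = v / (2 * t) := by
    norm_num
    field_simp
    ring
  rw [← e]
  exact this

namespace Line

/-- the place of the maximum -/
theorem mode (L : Line f D a η B lam N) (ht : 0 < t) (hBt : 4 * B * t ≤ 1) (hb : a ≤ y + β)
    (hl : β / (2 * t) < lam) :
    ∃ s, β ≤ s ∧ ∀ v, β ≤ v → ((D (y + v)).re - v / (2 * t)) * (v - s) ≤ -(v - s) ^ 2 / (4 * t) := by
  have hη := L.hη
  set k : ℝ → ℝ := fun v => (D (y + v)).re - v / (2 * t) with hk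
  have hder : ∀ v, β ≤ v → HasDerivAt k ((deriv D (y + v)).re - 1 / (2 * t)) v := by
    intro v hv
    have h1 : HasDerivAt D (deriv D (y + v)) (y + v) := (L.Dd _ (by linarith)).hasDerivAt
    have h2 : HasDerivAt (fun v => D (y + v)) (deriv D (y + v)) v := by
      simpa using h1.comp_const_add y v
    have h3 : HasDerivAt (fun v => (D (y + v)).re) (deriv D (y + v)).re v := hasDerivAt_re h2
    exact h3.sub ((hasDerivAt_id v).div_const (2 * t))
  have hbd : ∀ v, β ≤ v → (deriv D (y + v)).re ≤ B := fun v hv =>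
    (Complex.re_le_norm _).trans (L.Db _ (by linarith))
  have hB4 : B ≤ 1 / (4 * t) := by
    rw [le_div_iff₀ (by positivity)]; linarith
  have h24 : 1 / (2 * t) = 1 / (4 * t) + 1 / (4 * t) := by field_simp; ring
  -- antitone
  have hcont : ContinuousOn (fun v => k v + v / (4 * t)) (Ici β) := by
    intro v hv
    exact ((hder v hv).add ((hasDerivAt_id v).div_const (4 * t))).continuousAt.continuousWithinAt
  have hanti : AntitoneOn (fun v => k v + v / (4 * t)) (Ici β) := by
    apply antitoneOn_of_deriv_nonpos (convex_Ici β) hcont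
    · intro v hv
      rw [interior_Ici] at hv
      exact ((hder v (le_of_lt hv)).add ((hasDerivAt_id v).div_const (4 * t))).differentiableAt.differentiableWithinAt
    · intro v hv
      rw [interior_Ici] at hv
      have h1 := ((hder v (le_of_lt hv)).add ((hasDerivAt_id v).div_const (4 * t))).deriv
      have h2 : deriv (fun v => k v + v / (4 * t)) v = (deriv D (y + v)).re - 1 / (2 * t) + 1 / (4 * t) := h1
      rw [h2]
      have := hbd v (le_of_lt hv)
      linarith
  have hkβ : 0 < k β := by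
    have := L.re (y + β) (by linarith)
    simp only [hk]
    linarith
  set e : ℝ := β + 4 * t * k β with he
  have hβe : β ≤ e := by rw [he]; have : 0 ≤ 4 * t * k β := by positivity
                         linarith
  have hke : k e ≤ 0 := by
    have h1 := hanti (mem_Ici.2 le_rfl) (mem_Ici.2 hβe) hβe
    simp only at h1
    have h2 : e / (4 * t) = β / (4 * t) + k β := by
      rw [he]; field_simp
    linarith
  have hkc : ContinuousOn k (Icc β e) := fun v hv => (hder v hv.1).continuousAt.continuousWithinAt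
  obtain ⟨s, hs, hs0⟩ := intermediate_value_Icc' hβe hkc ⟨hke, hkβ.le⟩
  refine ⟨s, hs.1, fun v hv => ?_⟩
  change k v * (v - s) ≤ _
  rcases le_total s v with h | h
  · have h1 := hanti (mem_Ici.2 hs.1) (mem_Ici.2 hv) h
    simp only [hs0] at h1
    have h2 : k v ≤ -(v - s) / (4 * t) := by
      have : -(v - s) / (4 * t) = s / (4 * t) - v / (4 * t) := by ring
      rw [this]; linarith
    calc k v * (v - s) ≤ -(v - s) / (4 * t) * (v - s) := mul_le_mul_of_nonneg_right h2 (by linarith)
      _ = -(v - s) ^ 2 / (4 * t) := by ring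
  · have h1 := hanti (mem_Ici.2 hv) (mem_Ici.2 hs.1) h
    simp only [hs0] at h1
    have h2 : -(v - s) / (4 * t) ≤ k v := by
      have : -(v - s) / (4 * t) = s / (4 * t) - v / (4 * t) := by ring
      rw [this]; linarith
    calc k v * (v - s) ≤ -(v - s) / (4 * t) * (v - s) := mul_le_mul_of_nonpos_right h2 (by linarith)
      _ = -(v - s) ^ 2 / (4 * t) := by ring

/-- **The main part.** -/
theorem arc (L : Line f D a η B lam N) (ht : 0 < t) (htB : 16 * (B + 1) * t ≤ 1)
    (hBt : B ^ 2 * t ≤ 1 / 10000) (hβ : 0 ≤ β) (hb : a ≤ y + β) (hl : β / (2 * t) < lam) :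
    ∃ c Z0 Z1 : ℂ, ‖c‖ = 1 ∧ (∫ v in Ioi β, (gw t v : ℂ) * f (y + v)) = c * Z0 ∧
      (∫ v in Ioi β, (v : ℂ) * ((gw t v : ℂ) * f (y + v))) = c * Z1 ∧
      99 / 100 * (∫ v in Ioi β, gw t v * ‖f (y + v)‖) ≤ Z0.re ∧
      |Z0.im| ≤ 3 / 100 * (∫ v in Ioi β, gw t v * ‖f (y + v)‖) ∧
      99 / 100 * (∫ v in Ioi β, v * (gw t v * ‖f (y + v)‖)) ≤ Z1.re ∧
      |Z1.im| ≤ 5 / 100 * (∫ v in Ioi β, v * (gw t v * ‖f (y + v)‖)) := by
  have hB := L.hB
  have hη := L.hη
  obtain ⟨s, hs, hconc⟩ := L.mode ht (by nlinarith) hb hl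
  set ψ : ℝ → ℂ := fun v => ∫ u in (y + s)..(y + v), D u with hψ
  set φ : ℝ → ℝ := fun v => (ψ v).re - v ^ 2 / (4 * t) with hφ
  set θ : ℝ → ℝ := fun v => (ψ v).im with hθ
  have hDc : ContinuousOn D (Ioi (a - η)) := fun u hu => (L.Dd u hu).continuousAt.continuousWithinAt
  have hsub : ∀ u v, a - η < u → a - η < v → uIcc u v ⊆ Ioi (a - η) := by
    intro u v hu hv w hw
    rw [mem_uIcc] at hw
    rcases hw with h | h
    · exact lt_of_lt_of_le hu h.1
    · exact lt_of_lt_of_le hv h.1
  have hys : a - η < y + s := by linarith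
  have hψd : ∀ v, β ≤ v → HasDerivAt ψ (D (y + v)) v := by
    intro v hv
    have hyv : a - η < y + v := by linarith
    have h1 : HasDerivAt (fun w => ∫ u in (y + s)..w, D u) (D (y + v)) (y + v) := by
      apply intervalIntegral.integral_hasDerivAt_right
      · exact (hDc.mono (hsub _ _ hys hyv)).intervalIntegrable
      · exact hDc.stronglyMeasurableAtFilter isOpen_Ioi _ hyv
      · exact (L.Dd _ hyv).continuousAt
    simpa using h1.comp_const_add y v
  have hφd : ∀ v, β ≤ v → HasDerivAt φ ((D (y + v)).re - v / (2 * t)) v := by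
    intro v hv
    have h3 : HasDerivAt (fun v => (ψ v).re) (D (y + v)).re v := hasDerivAt_re (hψd v hv)
    exact h3.sub (hasDerivAt_sq_div ht)
  have hφ'c : ContinuousOn (fun v => (D (y + v)).re - v / (2 * t)) (Ici β) := by
    intro v hv
    have h1 : ContinuousAt D (y + v) := (L.Dd _ (by have := mem_Ici.1 hv; linarith)).continuousAt
    have h2 : ContinuousAt (fun v => D (y + v)) v :=
      ContinuousAt.comp (f := fun v => y + v) (g := D) h1 (by fun_prop)
    have h3 : ContinuousAt (fun v => (D (y + v)).re) v := Complex.continuous_re.continuousAt.comp h2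
    exact (h3.sub (by fun_prop)).continuousWithinAt
  have hθc : ContinuousOn θ (Ici β) := by
    intro v hv
    exact (Complex.continuous_im.continuousAt.comp (hψd v hv).continuousAt).continuousWithinAt
  have hθb : ∀ v ∈ Ioi β, |θ v| ≤ B * |v - s| := by
    intro v hv
    have hyv : a - η < y + v := by have := mem_Ioi.1 hv; linarith
    have hii : IntervalIntegrable D volume (y + s) (y + v) :=
      (hDc.mono (hsub _ _ hys hyv)).intervalIntegrable
    have h1 : θ v = ∫ u in (y + s)..(y + v), (D u).im := by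
      simp only [hθ, hψ]
      rw [← Complex.imCLM_apply, ← ContinuousLinearMap.intervalIntegral_comp_comm _ hii]
      simp
    rw [h1, ← Real.norm_eq_abs]
    have h2 := intervalIntegral.norm_integral_le_of_norm_le_const (a := y + s) (b := y + v)
      (f := fun u => (D u).im) (C := B) (fun u hu => by
        rw [Real.norm_eq_abs]
        exact L.im u (hsub _ _ hys hyv (uIoc_subset_uIcc hu)))
    simpa using h2
  -- the exponential formula
  have hform : ∀ v, β ≤ v → (gw t v : ℂ) * f (y + v) =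
      f (y + s) * ((Real.exp (φ v) : ℂ) * Complex.exp (θ v * Complex.I)) := by
    intro v hv
    rw [L.exp_form hys (by linarith : a - η < y + v)]
    have e1 : (∫ u in (y + s)..(y + v), D u) = ψ v := rfl
    rw [e1]
    unfold gw
    push_cast
    have e2 : Complex.exp (ψ v) = Complex.exp ((ψ v).re : ℂ) * Complex.exp (θ v * Complex.I) := by
      rw [← Complex.exp_add]
      congr 1
      simp only [hθ]
      exact (Complex.re_add_im (ψ v)).symm
    have e3 : Complex.exp ((φ v : ℝ) : ℂ) = Complex.exp ((ψ v).re : ℂ) * Complex.exp (-(v : ℂ) ^ 2 / (4 * t)) := by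
      rw [← Complex.exp_add]
      congr 1
      simp only [hφ]
      push_cast
      ring
    rw [e2, e3]
    ring
  have hnorm : ∀ v, β ≤ v → gw t v * ‖f (y + v)‖ = ‖f (y + s)‖ * Real.exp (φ v) := by
    intro v hv
    have := congrArg norm (hform v hv)
    rw [norm_mul, norm_mul, norm_mul, Complex.norm_real, Complex.norm_real,
      Real.norm_of_nonneg (gw_pos t v).le, Real.norm_of_nonneg (Real.exp_pos _).le,
      Complex.norm_exp_ofReal_mul_I, mul_one] at this
    exact this
  have hf0 : 0 < ‖f (y + s)‖ := norm_pos_iff.2 (L.ne _ hys)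
  -- integrability
  have hIq : ∀ q : ℝ → ℝ, Continuous q → (∃ C : ℝ, ∀ v, |q v| ≤ C * (1 + v ^ 2) ^ 2) →
      IntegrableOn (fun v => q v * Real.exp (φ v)) (Ioi β) := by
    intro q hq ⟨C, hC⟩
    have h1 := (L.int ht htB y (q := fun v => (q v : ℂ)) (C := C) (by fun_prop) (fun v => by
      rw [Complex.norm_real, Real.norm_eq_abs]; exact hC v)).norm.integrableOn (s := Ioi β)
    have h2 : IntegrableOn (fun v => |q v| * Real.exp (φ v)) (Ioi β) := by
      have h3 := h1.const_mul (‖f (y + s)‖⁻¹)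
      refine h3.congr ?_
      filter_upwards [ae_restrict_mem measurableSet_Ioi] with v hv
      rw [norm_mul, norm_mul, Complex.norm_real, Complex.norm_real, Real.norm_eq_abs,
        Real.norm_of_nonneg (gw_pos t v).le, hnorm v (le_of_lt hv)]
      field_simp
    refine Integrable.mono' h2 ?_ ?_
    · refine (hq.aestronglyMeasurable).mul ?_
      refine ContinuousOn.aestronglyMeasurable ?_ measurableSet_Ioi
      exact Real.continuous_exp.comp_continuousOn fun v hv => (hφd v (le_of_lt hv)).continuousAt.continuousWithinAt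
    · filter_upwards with v
      rw [norm_mul, Real.norm_eq_abs, Real.norm_of_nonneg (Real.exp_pos _).le]
  have hpol1 : ∀ v : ℝ, |v| ≤ 1 + v ^ 2 := fun v => by
    nlinarith [sq_abs v, abs_nonneg v, sq_nonneg (|v| - 1)]
  have hpol2 : ∀ v : ℝ, |(v - s) ^ 2| ≤ (2 + 2 * s ^ 2) * (1 + v ^ 2) := fun v => by
    rw [abs_of_nonneg (sq_nonneg _)]
    nlinarith [sq_nonneg (v + s), sq_nonneg v, sq_nonneg s, mul_nonneg (sq_nonneg v) (sq_nonneg s)]
  have hpos : ∀ v : ℝ, 1 ≤ 1 + v ^ 2 := fun v => by nlinarith [sq_nonneg v]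
  have hI0 : IntegrableOn (fun v => Real.exp (φ v)) (Ioi β) := by
    have := hIq (fun _ => 1) continuous_const ⟨1, fun v => by
      rw [abs_one, one_mul]; exact one_le_pow₀ (hpos v)⟩
    simpa using this
  have hI1 : IntegrableOn (fun v => v * Real.exp (φ v)) (Ioi β) :=
    hIq (fun v => v) continuous_id ⟨1, fun v => by
      have := hpol1 v; have := hpos v
      nlinarith⟩
  have hI2 : IntegrableOn (fun v => (v - s) ^ 2 * Real.exp (φ v)) (Ioi β) :=
    hIq (fun v => (v - s) ^ 2) (by fun_prop) ⟨2 + 2 * s ^ 2, fun v => by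
      have h1 := hpol2 v; have h2 := hpos v
      refine h1.trans (mul_le_mul_of_nonneg_left ?_ (by positivity))
      nlinarith⟩
  have hI3 : IntegrableOn (fun v => v * (v - s) ^ 2 * Real.exp (φ v)) (Ioi β) :=
    hIq (fun v => v * (v - s) ^ 2) (by fun_prop) ⟨2 + 2 * s ^ 2, fun v => by
      have h1 := hpol2 v; have h2 := hpos v
      rw [abs_mul]
      calc |v| * |(v - s) ^ 2| ≤ (1 + v ^ 2) * ((2 + 2 * s ^ 2) * (1 + v ^ 2)) :=
            mul_le_mul (hpol1 v) h1 (abs_nonneg _) (by positivity)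
        _ = (2 + 2 * s ^ 2) * (1 + v ^ 2) ^ 2 := by ring⟩
  -- the moment inequalities
  have hm0 := HF.mom_inf ht hs hφd hφ'c hconc hI0 hI2
  have hm1 := HF.mom_inf1 (y := 0) ht hβ hs hφd hφ'c hconc (by simpa using hI1) (by simpa using hI3)
  have hp0 := HF.phase_bound (q := fun v => Real.exp (φ v)) (θ := θ) (s := s) (b := β) (κ := 4) ht (by linarith : 0 ≤ B)
    (fun _ _ => (Real.exp_pos _).le) hθb
    ((hθc.mono Ioi_subset_Ici_self).aestronglyMeasurable measurableSet_Ioi) hI0 hI2 hm0
  have hp1 := HF.phase_bound (q := fun v => v * Real.exp (φ v)) (θ := θ) (s := s) (b := β) (κ := 8) ht (by linarith : 0 ≤ B)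
    (fun v hv => mul_nonneg (hβ.trans (le_of_lt hv)) (Real.exp_pos _).le) hθb
    ((hθc.mono Ioi_subset_Ici_self).aestronglyMeasurable measurableSet_Ioi) hI1
    (hI3.congr (Eventually.of_forall fun v => by simp only; ring)) (by
      have e1 : (∫ σ in Ioi β, (σ - s) ^ 2 * (σ * Real.exp (φ σ))) =
          ∫ σ in Ioi β, (σ - 0) * (σ - s) ^ 2 * Real.exp (φ σ) := by
        congr 1; ext σ; ring
      have e2 : (∫ σ in Ioi β, σ * Real.exp (φ σ)) = ∫ σ in Ioi β, (σ - 0) * Real.exp (φ σ) := by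
        congr 1; ext σ; ring
      rw [e1, e2]; exact hm1)
  have hBst : B * Real.sqrt t ≤ 1 / 100 := by
    have h1 : (B * Real.sqrt t) ^ 2 ≤ (1 / 100) ^ 2 := by
      rw [mul_pow, Real.sq_sqrt ht.le]; norm_num; linarith
    exact (pow_le_pow_iff_left₀ (by positivity) (by norm_num) (by norm_num)).1 h1
  have eM0 : (∫ v in Ioi β, gw t v * ‖f (y + v)‖) = ‖f (y + s)‖ * ∫ v in Ioi β, Real.exp (φ v) := by
    rw [← integral_const_mul]
    exact setIntegral_congr_fun measurableSet_Ioi fun v hv => hnorm v (le_of_lt hv)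
  have eM1 : (∫ v in Ioi β, v * (gw t v * ‖f (y + v)‖)) = ‖f (y + s)‖ * ∫ v in Ioi β, v * Real.exp (φ v) := by
    rw [← integral_const_mul]
    refine setIntegral_congr_fun measurableSet_Ioi fun v hv => ?_
    rw [hnorm v (le_of_lt hv)]; ring
  have hJ0 : 0 ≤ ∫ v in Ioi β, Real.exp (φ v) :=
    setIntegral_nonneg measurableSet_Ioi fun _ _ => (Real.exp_pos _).le
  have hJ1 : 0 ≤ ∫ v in Ioi β, v * Real.exp (φ v) :=
    setIntegral_nonneg measurableSet_Ioi fun v hv => mul_nonneg (hβ.trans (le_of_lt hv)) (Real.exp_pos _).le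
  refine ⟨f (y + s) / (‖f (y + s)‖ : ℂ),
    (‖f (y + s)‖ : ℂ) * ∫ v in Ioi β, (Real.exp (φ v) : ℂ) * Complex.exp (θ v * Complex.I),
    (‖f (y + s)‖ : ℂ) * ∫ v in Ioi β, ((v * Real.exp (φ v) : ℝ) : ℂ) * Complex.exp (θ v * Complex.I),
    ?_, ?_, ?_, ?_, ?_, ?_, ?_⟩
  · rw [norm_div, Complex.norm_real, norm_norm, div_self hf0.ne']
  · have hne : (‖f (y + s)‖ : ℂ) ≠ 0 := by exact_mod_cast hf0.ne'
    rw [← mul_assoc, div_mul_cancel₀ _ hne, ← integral_const_mul]
    exact setIntegral_congr_fun measurableSet_Ioi fun v hv => hform v (le_of_lt hv)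
  · have hne : (‖f (y + s)‖ : ℂ) ≠ 0 := by exact_mod_cast hf0.ne'
    rw [← mul_assoc, div_mul_cancel₀ _ hne, ← integral_const_mul]
    refine setIntegral_congr_fun measurableSet_Ioi fun v hv => ?_
    rw [hform v (le_of_lt hv)]
    push_cast
    ring
  · rw [Complex.re_ofReal_mul, eM0]
    have h1 := hp0.1
    have h2 : 99 / 100 ≤ 1 - B ^ 2 * 4 * t / 2 := by nlinarith
    have h3 := (mul_le_mul_of_nonneg_right h2 hJ0).trans h1
    nlinarith [mul_le_mul_of_nonneg_left h3 hf0.le]
  · rw [Complex.im_ofReal_mul, abs_mul, abs_of_pos hf0, eM0]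
    have h1 := hp0.2
    have h2 : B * Real.sqrt t * (1 + 4) / 2 ≤ 3 / 100 := by nlinarith
    have h3 := h1.trans (mul_le_mul_of_nonneg_right h2 hJ0)
    nlinarith [mul_le_mul_of_nonneg_left h3 hf0.le]
  · rw [Complex.re_ofReal_mul, eM1]
    have h1 := hp1.1
    have h2 : 99 / 100 ≤ 1 - B ^ 2 * 8 * t / 2 := by nlinarith
    have h3 := (mul_le_mul_of_nonneg_right h2 hJ1).trans h1
    nlinarith [mul_le_mul_of_nonneg_left h3 hf0.le]
  · rw [Complex.im_ofReal_mul, abs_mul, abs_of_pos hf0, eM1]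
    have h1 := hp1.2
    have h2 : B * Real.sqrt t * (1 + 8) / 2 ≤ 5 / 100 := by nlinarith
    have h3 := h1.trans (mul_le_mul_of_nonneg_right h2 hJ1)
    nlinarith [mul_le_mul_of_nonneg_left h3 hf0.le]

end Line

end Pool.Agent.KS6_29.HS
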