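import Mathlib
import Pool.Agent.KS6_29.HS.Line3

/-!
# The two inequalities on a horizontal line
-/

set_option autoImplicit false

namespace Pool.Agent.KS6_29.HS

open MeasureTheory Set Filter Topology

variable {f D : ℝ → ℂ} {a η B lam N t y β m : ℝ}

namespace Line

/-- lower bound for the main part -/
theorem mass (L : Line f D a η B lam N) (ht : 0 < t) (htB : 16 * (B + 1) * t ≤ 1) (hβ : 0 ≤ β)
    (hb : a ≤ y + β) (hK : β ≤ 2 * t * lam) :
    ‖f (y + β)‖ * (Real.sqrt t * Real.exp (t * lam ^ 2 - lam * β - 1 / 4)) ≤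
      ∫ v in Ioi β, gw t v * ‖f (y + v)‖ := by
  have hη := L.hη
  have hI : Integrable (fun v => gw t v * ‖f (y + v)‖) := by
    refine (L.int0 ht htB y).norm.congr (Eventually.of_forall fun v => ?_)
    simp only [norm_mul, Complex.norm_real, Real.norm_of_nonneg (gw_pos t v).le]
  have hst : 0 < Real.sqrt t := Real.sqrt_pos.2 ht
  set v0 : ℝ := 2 * t * lam with hv0
  have h1 : ∫ v in (Ioc v0 (v0 + Real.sqrt t)), ‖f (y + β)‖ * Real.exp (t * lam ^ 2 - lam * β - 1 / 4) ≤
      ∫ v in (Ioc v0 (v0 + Real.sqrt t)), gw t v * ‖f (y + v)‖ := by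
    apply setIntegral_mono_on continuous_const.integrableOn_Ioc hI.integrableOn measurableSet_Ioc
    intro v hv
    have h2 := L.mono hb (by linarith [hv.1] : y + β ≤ y + v)
    have h4 : Real.exp (t * lam ^ 2 - lam * β - 1 / 4) ≤
        gw t v * Real.exp (lam * (y + v - (y + β))) := by
      unfold gw
      rw [← Real.exp_add]
      apply Real.exp_le_exp.2
      have h5 : (v - v0) ^ 2 ≤ t := by
        have h6 : (v - v0) ^ 2 ≤ (Real.sqrt t) ^ 2 :=
          pow_le_pow_left₀ (by linarith [hv.1]) (by linarith [hv.2]) 2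
        rwa [Real.sq_sqrt ht.le] at h6
      have e : -v ^ 2 / (4 * t) + lam * (y + v - (y + β)) =
          t * lam ^ 2 - lam * β - (v - v0) ^ 2 / (4 * t) := by
        rw [hv0]; field_simp; ring
      rw [e]
      have h7 : (v - v0) ^ 2 / (4 * t) ≤ 1 / 4 := by
        rw [div_le_iff₀ (by positivity)]; linarith
      linarith
    calc ‖f (y + β)‖ * Real.exp (t * lam ^ 2 - lam * β - 1 / 4)
        ≤ ‖f (y + β)‖ * (gw t v * Real.exp (lam * (y + v - (y + β)))) :=
          mul_le_mul_of_nonneg_left h4 (norm_nonneg _)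
      _ = gw t v * (‖f (y + β)‖ * Real.exp (lam * (y + v - (y + β)))) := by ring
      _ ≤ gw t v * ‖f (y + v)‖ := mul_le_mul_of_nonneg_left h2 (gw_pos t v).le
  have h2 : ∫ v in (Ioc v0 (v0 + Real.sqrt t)), gw t v * ‖f (y + v)‖ ≤
      ∫ v in Ioi β, gw t v * ‖f (y + v)‖ := by
    apply setIntegral_mono_set hI.integrableOn
    · filter_upwards with v using mul_nonneg (gw_pos t v).le (norm_nonneg _)
    · refine LE.le.eventuallyLE ?_
      intro v hv
      exact mem_Ioi.2 (by linarith [hv.1])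
  rw [setIntegral_const, smul_eq_mul, Real.volume_real_Ioc_of_le (by linarith)] at h1
  have e : v0 + Real.sqrt t - v0 = Real.sqrt t := by ring
  rw [e] at h1
  refine le_trans (le_of_eq ?_) (h1.trans h2)
  ring

/-- integrability with the derivative -/
theorem intd (L : Line f D a η B lam N) (ht : 0 < t) (htB : 16 * (B + 1) * t ≤ 1) (y : ℝ) :
    Integrable (fun v => (gw t v : ℂ) * deriv f (y + v)) := by
  obtain ⟨M, hM⟩ := L.growd
  have := integ L.hB ht htB L.cont hM y (q := fun _ => 1) (C := 1) continuous_const (fun v => by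
    simp only [norm_one, one_mul]
    nlinarith [sq_nonneg v])
  simpa using this

/-- integration by parts -/
theorem parts (L : Line f D a η B lam N) (ht : 0 < t) (htB : 16 * (B + 1) * t ≤ 1) (y : ℝ) :
    (2 * t : ℂ) * (∫ v in Ioi (0 : ℝ), (gw t v : ℂ) * deriv f (y + v)) =
      (∫ v in Ioi (0 : ℝ), (v : ℂ) * ((gw t v : ℂ) * f (y + v))) - 2 * t * f y := by
  have ht' : (t : ℂ) ≠ 0 := by exact_mod_cast ht.ne'
  have h0 := L.int0 ht htB y
  have h1 := L.int1 ht htB y
  have hd := L.intd ht htB y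
  have hder : ∀ v : ℝ, HasDerivAt (fun v : ℝ => (gw t v : ℂ) * f (y + v))
      (-(1 / (2 * t) : ℂ) * ((v : ℂ) * ((gw t v : ℂ) * f (y + v))) + (gw t v : ℂ) * deriv f (y + v)) v := by
    intro v
    have e1 : HasDerivAt (fun v : ℝ => (gw t v : ℂ)) ((gw t v * (-(v / (2 * t))) : ℝ) : ℂ) v := by
      have e2 : HasDerivAt (fun v : ℝ => gw t v) (gw t v * (-(v / (2 * t)))) v := by
        have e3 := (hasDerivAt_sq_div (t := t) (v := v) ht).neg.exp
        have e4 : (fun v : ℝ => gw t v) = fun v => Real.exp (-(v ^ 2 / (4 * t))) := by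
          ext v; unfold gw; rw [neg_div]
        have e5 : gw t v = Real.exp (-(v ^ 2 / (4 * t))) := by unfold gw; rw [neg_div]
        rw [e4, e5]; exact e3
      exact e2.ofReal_comp
    have e2 : HasDerivAt (fun v => f (y + v)) (deriv f (y + v)) v := by
      have := (L.diff (y + v)).hasDerivAt
      simpa using this.comp_const_add y v
    have e3 := e1.mul e2
    have e4 : ((gw t v * (-(v / (2 * t))) : ℝ) : ℂ) * f (y + v) + (gw t v : ℂ) * deriv f (y + v) =
        -(1 / (2 * t) : ℂ) * ((v : ℂ) * ((gw t v : ℂ) * f (y + v))) + (gw t v : ℂ) * deriv f (y + v) := by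
      push_cast
      ring
    rw [← e4]
    exact e3
  have hint : IntegrableOn (fun v : ℝ => -(1 / (2 * t) : ℂ) * ((v : ℂ) * ((gw t v : ℂ) * f (y + v))) +
      (gw t v : ℂ) * deriv f (y + v)) (Ioi 0) :=
    ((h1.const_mul _).add hd).integrableOn
  have hlim : Tendsto (fun v : ℝ => (gw t v : ℂ) * f (y + v)) atTop (𝓝 0) := by
    have h2 : IntegrableOn (fun v : ℝ => (gw t v : ℂ) * f (y + v)) (Ioi 0) := h0.integrableOn
    exact tendsto_zero_of_hasDerivAt_of_integrableOn_Ioi (fun v _ => hder v) hint h2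
  have h3 := integral_Ioi_of_hasDerivAt_of_tendsto (a := (0 : ℝ)) (m := 0)
    (f := fun v : ℝ => (gw t v : ℂ) * f (y + v)) (hder 0).continuousAt.continuousWithinAt
    (fun v _ => hder v) hint hlim
  rw [integral_add (h1.const_mul _).integrableOn hd.integrableOn, integral_const_mul] at h3
  have h4 : gw t 0 = 1 := by simp [gw]
  simp only [h4, add_zero, Complex.ofReal_one, one_mul, zero_sub] at h3
  have h5 : (2 * t : ℂ) * (∫ v in Ioi (0 : ℝ), (gw t v : ℂ) * deriv f (y + v)) -
      (∫ v in Ioi (0 : ℝ), (v : ℂ) * ((gw t v : ℂ) * f (y + v))) = 2 * t * (-f y) := by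
    rw [← h3]
    field_simp
    ring
  linear_combination h5

end Line

end Pool.Agent.KS6_29.HS
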