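import Mathlib
import Pool.Agent.KS6_29.HS.Line4

/-!
# The two inequalities on a horizontal line, end
-/

set_option autoImplicit false

namespace Pool.Agent.KS6_29.HS

open MeasureTheory Set Filter Topology

variable {f D : ℝ → ℂ} {a η B lam N t y β : ℝ}

/-- The conditions on the time. -/
structure Cond (a η B lam N t : ℝ) : Prop where
  ht : 0 < t
  htB : 16 * (B + 1) * t ≤ 1
  hBt : B ^ 2 * t ≤ 1 / 10000
  hηt : 10 * t ≤ η
  hK : a + 2 * η ≤ t * lam
  hN : 40000 * ((a + 1) ^ 2 + 1) * N ≤ Real.sqrt t * Real.exp (η * lam - 1 / 4)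

namespace Line

theorem cond_hl (L : Line f D a η B lam N) (H : Cond a η B lam N t) (hβ : β ≤ a + η) :
    β / (2 * t) < lam := by
  have ht := H.ht
  have ha := L.ha
  have hη := L.hη
  rw [div_lt_iff₀ (by positivity)]
  have h1 := H.hK
  nlinarith

theorem cond_mass (L : Line f D a η B lam N) (H : Cond a η B lam N t) (hβ0 : 0 ≤ β) (hβ : β ≤ a + η)
    (hb : a ≤ y + β) :
    40000 * ((a + 1) ^ 2 + 1) * (N * ‖f (y + β)‖) ≤ ∫ v in Ioi β, gw t v * ‖f (y + v)‖ := by
  have ht := H.ht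
  have ha := L.ha
  have hη := L.hη
  have hl := L.hl
  have h1 := L.mass ht H.htB hβ0 hb (by nlinarith [H.hK])
  refine le_trans ?_ h1
  have h2 : Real.exp (η * lam - 1 / 4) ≤ Real.exp (t * lam ^ 2 - lam * β - 1 / 4) := by
    apply Real.exp_le_exp.2
    have h3 := H.hK
    have h4 : (a + 2 * η) * lam ≤ t * lam * lam := mul_le_mul_of_nonneg_right h3 hl
    have h5 : lam * β ≤ lam * (a + η) := mul_le_mul_of_nonneg_left hβ hl
    nlinarith
  have h3 := H.hN.trans (mul_le_mul_of_nonneg_left h2 (Real.sqrt_nonneg t))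
  have h4 := mul_le_mul_of_nonneg_right h3 (norm_nonneg (f (y + β)))
  nlinarith

/-- the integral up to `β` -/
theorem head (L : Line f D a η B lam N) (H : Cond a η B lam N t) (hβ : 0 ≤ β) (hβa : β ≤ a + 1)
    {q : ℝ → ℂ} {C : ℝ} (hqC : ∀ v ∈ Ioc 0 β, ‖q v‖ ≤ C) (hC : 0 ≤ C)
    (hy : ∀ v ∈ Ioc 0 β, |y + v| ≤ y + β) (hb : a ≤ y + β) :
    ‖∫ v in Ioc 0 β, q v * ((gw t v : ℂ) * f (y + v))‖ ≤ C * (a + 1) * (N * ‖f (y + β)‖) := by
  have ha := L.ha
  have hN := L.hN
  have h1 : ‖∫ v in Ioc 0 β, q v * ((gw t v : ℂ) * f (y + v))‖ ≤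
      (C * (N * ‖f (y + β)‖)) * (volume (Ioc (0 : ℝ) β)).toReal := by
    apply norm_setIntegral_le_of_norm_le_const (by simp)
    intro v hv
    rw [norm_mul, norm_mul, Complex.norm_real, Real.norm_of_nonneg (gw_pos t v).le]
    have h2 := L.le_of_abs hb (hy v hv)
    have h3 := gw_le_one H.ht v
    have h4 : gw t v * ‖f (y + v)‖ ≤ 1 * (N * ‖f (y + β)‖) :=
      mul_le_mul h3 h2 (norm_nonneg _) (by norm_num)
    rw [one_mul] at h4
    exact mul_le_mul (hqC v hv) h4 (mul_nonneg (gw_pos t v).le (norm_nonneg _)) hC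
  refine h1.trans ?_
  rw [Real.volume_Ioc, sub_zero, ENNReal.toReal_ofReal hβ]
  have h2 : 0 ≤ C * (N * ‖f (y + β)‖) := mul_nonneg hC (mul_nonneg (by linarith) (norm_nonneg _))
  nlinarith

/-- **First inequality.** -/
theorem c1 (L : Line f D a η B lam N) (H : Cond a η B lam N t) (hy : |y| ≤ η) :
    0 < ((∫ v in Ioi (0 : ℝ), (gw t v : ℂ) * deriv f (y + v)) *
      (starRingEnd ℂ) (∫ v in Ioi (0 : ℝ), (gw t v : ℂ) * f (y + v))).re := by
  have ha := L.ha
  have ht := H.ht
  have hη := L.hη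
  have hη4 := L.hη4
  have hN1 := L.hN
  obtain ⟨hy1, hy2⟩ := abs_le.1 hy
  set β : ℝ := a - y with hβdef
  have hβ1 : 1 / 4 ≤ β := by linarith
  have hβη : β ≤ a + η := by linarith
  have hβa : β ≤ a + 1 := by linarith
  have hyb : y + β = a := by ring
  have hb : a ≤ y + β := by linarith
  obtain ⟨c, Z0, Z1, hc, e0, e1, hr0, hi0, hr1, hi1⟩ := L.arc ht H.htB H.hBt (by linarith) hb
    (L.cond_hl H hβη)
  have hmass := L.cond_mass H (by linarith) hβη hb
  set M0 : ℝ := ∫ v in Ioi β, gw t v * ‖f (y + v)‖ with hM0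
  set M1 : ℝ := ∫ v in Ioi β, v * (gw t v * ‖f (y + v)‖) with hM1
  have hfa : 0 < ‖f a‖ := norm_pos_iff.2 (L.ne a (by linarith))
  rw [hyb] at hmass
  have hM0pos : 0 < M0 := lt_of_lt_of_le (by positivity) hmass
  have hI0 := L.int0 ht H.htB y
  have hI1 := L.int1 ht H.htB y
  have hM1M0 : 1 / 4 * M0 ≤ M1 := by
    rw [hM0, ← integral_const_mul]
    apply setIntegral_mono_on
    · refine ((hI0.norm.congr (Eventually.of_forall fun v => ?_)).integrableOn).const_mul _
      simp only [norm_mul, Complex.norm_real, Real.norm_of_nonneg (gw_pos t v).le]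
    · refine ((hI1.norm.integrableOn (s := Ioi β))).congr ?_
      filter_upwards [ae_restrict_mem measurableSet_Ioi] with v hv
      have : 0 ≤ v := by have := mem_Ioi.1 hv; linarith
      simp only [norm_mul, Complex.norm_real, Real.norm_of_nonneg (gw_pos t v).le, Real.norm_of_nonneg this]
    · exact measurableSet_Ioi
    · intro v hv
      have h1 : 1 / 4 ≤ v := by have := mem_Ioi.1 hv; linarith
      have h2 : 0 ≤ gw t v * ‖f (y + v)‖ := mul_nonneg (gw_pos t v).le (norm_nonneg _)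
      exact mul_le_mul_of_nonneg_right h1 h2
  have hM1pos : 0 < M1 := lt_of_lt_of_le (by positivity) hM1M0
  -- the smallness
  set δ : ℝ := N * ‖f a‖ with hδ
  have hδ0 : 0 ≤ δ := mul_nonneg (by linarith) hfa.le
  have hsmall : 40000 * ((a + 1) ^ 2 + 1) * δ ≤ M0 := hmass
  have hsplit : ∀ g : ℝ → ℂ, Integrable g → (∫ v in Ioi (0 : ℝ), g v) =
      (∫ v in Ioc 0 β, g v) + ∫ v in Ioi β, g v := by
    intro g hg
    rw [← setIntegral_union (Ioc_disjoint_Ioi le_rfl) measurableSet_Ioi hg.integrableOn hg.integrableOn,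
      Ioc_union_Ioi_eq_Ioi (by linarith)]
  have habs : ∀ v ∈ Ioc 0 β, |y + v| ≤ y + β := by
    intro v hv
    rw [abs_le]; constructor <;> linarith [hv.1, hv.2]
  set E0 : ℂ := ∫ v in Ioc 0 β, (gw t v : ℂ) * f (y + v) with hE0
  set E1 : ℂ := ∫ v in Ioc 0 β, (v : ℂ) * ((gw t v : ℂ) * f (y + v)) with hE1
  have hE0b : ‖E0‖ ≤ 1 / 10000 * M0 := by
    have := L.head (q := fun _ => 1) (C := 1) (y := y) H (by linarith) hβa (by simp) (by norm_num) habs hb
    simp only [one_mul, hyb] at this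
    rw [hE0]
    refine this.trans ?_
    nlinarith
  have hE1b : ‖E1‖ ≤ 1 / 10000 * M1 := by
    have := L.head (q := fun v => (v : ℂ)) (C := a + 1) (y := y) H (by linarith) hβa (by
      intro v hv
      rw [Complex.norm_real, Real.norm_of_nonneg hv.1.le]; linarith [hv.2]) (by linarith) habs hb
    simp only [hyb] at this
    rw [hE1]
    refine this.trans ?_
    nlinarith
  have hfy : ‖f y‖ ≤ δ := L.mid y (by linarith)
  set P : ℂ := ∫ v in Ioi (0 : ℝ), (gw t v : ℂ) * f (y + v) with hP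
  have hPe : P = c * Z0 + E0 := by
    rw [hP, hsplit _ hI0, e0]; ring
  have hQ := L.parts ht H.htB y
  set Q : ℂ := ∫ v in Ioi (0 : ℝ), (gw t v : ℂ) * deriv f (y + v) with hQdef
  have hQe : (2 * t : ℂ) * Q = c * Z1 + (E1 - 2 * t * f y) := by
    rw [hQ, hsplit _ hI1, e1]; ring
  have ht1 : 2 * t ≤ 1 := by
    have := H.htB; have := L.hB
    nlinarith
  have hE1b' : ‖E1 - 2 * t * f y‖ ≤ 2 / 10000 * M1 := by
    have h1 : ‖(2 * t : ℂ) * f y‖ ≤ δ := by
      rw [norm_mul]
      have : ‖(2 * t : ℂ)‖ = 2 * t := by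
        rw [show (2 * t : ℂ) = ((2 * t : ℝ) : ℂ) by push_cast; ring, Complex.norm_real,
          Real.norm_of_nonneg (by positivity)]
      rw [this]
      nlinarith [norm_nonneg (f y)]
    have h2 : δ ≤ 1 / 10000 * M1 := by nlinarith
    calc ‖E1 - 2 * t * f y‖ ≤ ‖E1‖ + ‖(2 * t : ℂ) * f y‖ := norm_sub_le _ _
      _ ≤ 2 / 10000 * M1 := by linarith
  -- normalise by the phase
  set c' : ℂ := (starRingEnd ℂ) c with hc'
  have hcc : c * c' = 1 := by
    rw [hc', Complex.mul_conj, Complex.normSq_eq_norm_sq, hc]; norm_num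
  have hc'n : ‖c'‖ = 1 := by rw [hc', RCLike.norm_conj, hc]
  set X0 : ℂ := Z0 + c' * E0 with hX0
  set X1 : ℂ := Z1 + c' * (E1 - 2 * t * f y) with hX1
  have hPX : P = c * X0 := by
    rw [hPe, hX0]; linear_combination (-E0) * hcc
  have hQX : (2 * t : ℂ) * Q = c * X1 := by
    rw [hQe, hX1]; linear_combination (-(E1 - 2 * t * f y)) * hcc
  have hb0 : ‖c' * E0‖ ≤ 1 / 10000 * M0 := by rw [norm_mul, hc'n, one_mul]; exact hE0b
  have hb1 : ‖c' * (E1 - 2 * t * f y)‖ ≤ 2 / 10000 * M1 := by rw [norm_mul, hc'n, one_mul]; exact hE1b'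
  have r0 := (abs_le.1 ((Complex.abs_re_le_norm _).trans hb0))
  have i0 := (abs_le.1 ((Complex.abs_im_le_norm _).trans hb0))
  have r1 := (abs_le.1 ((Complex.abs_re_le_norm _).trans hb1))
  have i1 := (abs_le.1 ((Complex.abs_im_le_norm _).trans hb1))
  have hX0r : 98 / 100 * M0 ≤ X0.re := by
    rw [hX0, Complex.add_re]; linarith [r0.1]
  have hX0i : |X0.im| ≤ 4 / 100 * M0 := by
    rw [hX0, Complex.add_im, abs_le]
    have := abs_le.1 hi0
    constructor <;> linarith [i0.1, i0.2]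
  have hX1r : 98 / 100 * M1 ≤ X1.re := by
    rw [hX1, Complex.add_re]; linarith [r1.1]
  have hX1i : |X1.im| ≤ 6 / 100 * M1 := by
    rw [hX1, Complex.add_im, abs_le]
    have := abs_le.1 hi1
    constructor <;> linarith [i1.1, i1.2]
  have hprod : (2 * t : ℂ) * (Q * (starRingEnd ℂ) P) = X1 * (starRingEnd ℂ) X0 := by
    rw [← mul_assoc, hQX, hPX, map_mul]
    linear_combination (X1 * (starRingEnd ℂ) X0) * hcc
  have hre : 2 * t * (Q * (starRingEnd ℂ) P).re = X1.re * X0.re + X1.im * X0.im := by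
    have := congrArg Complex.re hprod
    rw [show (2 * t : ℂ) = ((2 * t : ℝ) : ℂ) by push_cast; ring, Complex.re_ofReal_mul] at this
    rw [this, Complex.mul_re, Complex.conj_re, Complex.conj_im]; ring
  have h1 : (98 / 100 * M1) * (98 / 100 * M0) ≤ X1.re * X0.re :=
    mul_le_mul hX1r hX0r (by positivity) (le_trans (by positivity) hX1r)
  have h2 : |X1.im * X0.im| ≤ (6 / 100 * M1) * (4 / 100 * M0) := by
    rw [abs_mul]; exact mul_le_mul hX1i hX0i (abs_nonneg _) (by positivity)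
  have h3 := (abs_le.1 h2).1
  have h4 : 0 < M1 * M0 := mul_pos hM1pos hM0pos
  have h5 : 0 < 2 * t * (Q * (starRingEnd ℂ) P).re := by rw [hre]; nlinarith
  exact (mul_pos_iff_of_pos_left (by positivity)).1 h5

/-- **Second inequality.** -/
theorem c2 (L : Line f D a η B lam N) (H : Cond a η B lam N t) (hy : η ≤ y) :
    ‖∫ v in Ioi (0 : ℝ), (gw t v : ℂ) * f (-y + v)‖ < ‖∫ v in Ioi (0 : ℝ), (gw t v : ℂ) * f (y + v)‖ := by
  have ha := L.ha
  have ht := H.ht
  have hη := L.hη
  have hη4 := L.hη4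
  have hN1 := L.hN
  have hB := L.hB
  have ht32 : 32 * t ≤ 1 := by have := H.htB; nlinarith
  set β : ℝ := max (a - y) 0 with hβdef
  have hβ0 : 0 ≤ β := le_max_right _ _
  have hβη : β ≤ a + η := by
    rw [hβdef]; apply max_le <;> linarith
  have hβa : β ≤ a + 1 := by linarith
  have hb : a ≤ y + β := by have := le_max_left (a - y) 0; linarith
  have hb1 : 1 / 2 ≤ y + β := by linarith
  obtain ⟨c, Z0, Z1, hc, e0, e1, hr0, hi0, hr1, hi1⟩ := L.arc ht H.htB H.hBt hβ0 hb
    (L.cond_hl H hβη)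
  have hmass := L.cond_mass H hβ0 hβη hb
  set M0 : ℝ := ∫ v in Ioi β, gw t v * ‖f (y + v)‖ with hM0
  have hfa : 0 < ‖f (y + β)‖ := norm_pos_iff.2 (L.ne _ (by linarith))
  have hM0pos : 0 < M0 := lt_of_lt_of_le (by positivity) hmass
  have hI0 := L.int0 ht H.htB y
  set δ : ℝ := N * ‖f (y + β)‖ with hδ
  have hδ0 : 0 ≤ δ := mul_nonneg (by linarith) hfa.le
  have hsmall : 40000 * ((a + 1) ^ 2 + 1) * δ ≤ M0 := hmass
  have hδs : δ ≤ 1 / 10000 * M0 := by nlinarith
  -- the lower bound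
  have hlow : 98 / 100 * M0 ≤ ‖∫ v in Ioi (0 : ℝ), (gw t v : ℂ) * f (y + v)‖ := by
    have hsplit : (∫ v in Ioi (0 : ℝ), (gw t v : ℂ) * f (y + v)) =
        (∫ v in Ioc 0 β, (gw t v : ℂ) * f (y + v)) + ∫ v in Ioi β, (gw t v : ℂ) * f (y + v) := by
      rw [← setIntegral_union (Ioc_disjoint_Ioi le_rfl) measurableSet_Ioi hI0.integrableOn hI0.integrableOn,
        Ioc_union_Ioi_eq_Ioi hβ0]
    have habs : ∀ v ∈ Ioc 0 β, |y + v| ≤ y + β := by
      intro v hv
      rw [abs_le]; constructor <;> linarith [hv.1, hv.2]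
    have h1 := L.head (q := fun _ => 1) (C := 1) (y := y) H hβ0 hβa (by simp) (by norm_num) habs hb
    simp only [one_mul] at h1
    have h2 : ‖∫ v in Ioc 0 β, (gw t v : ℂ) * f (y + v)‖ ≤ 1 / 10000 * M0 := h1.trans (by nlinarith)
    have h3 : 99 / 100 * M0 ≤ ‖∫ v in Ioi β, (gw t v : ℂ) * f (y + v)‖ := by
      rw [e0, norm_mul, hc, one_mul]
      exact hr0.trans (Complex.re_le_norm _)
    rw [hsplit]
    have h4 := norm_sub_le_norm_add (∫ v in Ioi β, (gw t v : ℂ) * f (y + v)) (∫ v in Ioc 0 β, (gw t v : ℂ) * f (y + v))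
    rw [add_comm] at h4
    linarith
  -- the upper bound
  have hup : ‖∫ v in Ioi (0 : ℝ), (gw t v : ℂ) * f (-y + v)‖ ≤ 2 / 100 * M0 := by
    set g : ℝ → ℝ := (Ioi β).indicator (fun v => gw t v * ‖f (y + v)‖) with hg
    have hgI : Integrable g := by
      rw [hg, integrable_indicator_iff measurableSet_Ioi]
      refine (hI0.norm.congr (Eventually.of_forall fun v => ?_)).integrableOn
      simp only [norm_mul, Complex.norm_real, Real.norm_of_nonneg (gw_pos t v).le]
    have hgn : ∀ v, 0 ≤ g v := fun v =>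
      indicator_nonneg (fun v _ => mul_nonneg (gw_pos t v).le (norm_nonneg _)) v
    have hgwI : Integrable (gw t) := by
      have := integrable_exp_neg_mul_sq (b := 1 / (4 * t)) (by positivity)
      refine this.congr (Eventually.of_forall fun v => ?_)
      simp only [gw]; congr 1; ring
    have hgI2 : Integrable (fun v => g (v - 2 * y)) := hgI.comp_sub_right (2 * y)
    have hmaj : Integrable (fun v => δ * gw t v + Real.exp (-(η / (2 * t))) * g (v - 2 * y)) :=
      (hgwI.const_mul _).add (hgI2.const_mul _)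
    have h1 : ‖∫ v in Ioi (0 : ℝ), (gw t v : ℂ) * f (-y + v)‖ ≤
        ∫ v in Ioi (0 : ℝ), (δ * gw t v + Real.exp (-(η / (2 * t))) * g (v - 2 * y)) := by
      apply norm_integral_le_of_norm_le hmaj.integrableOn
      filter_upwards [ae_restrict_mem measurableSet_Ioi] with v hv
      have hv0 : 0 < v := hv
      rw [norm_mul, Complex.norm_real, Real.norm_of_nonneg (gw_pos t v).le]
      by_cases h : |-y + v| ≤ y + β
      · have h2 := L.le_of_abs hb h
        have h3 : 0 ≤ Real.exp (-(η / (2 * t))) * g (v - 2 * y) := mul_nonneg (Real.exp_pos _).le (hgn _)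
        have h4 := mul_le_mul_of_nonneg_left h2 (gw_pos t v).le
        rw [hδ]; nlinarith
      · push Not at h
        have h2 : y + β < -y + v := by
          rcases abs_cases (-y + v) with ⟨h5, _⟩ | ⟨h5, _⟩
          · rwa [h5] at h
          · rw [h5] at h; linarith
        have h3 : g (v - 2 * y) = gw t (v - 2 * y) * ‖f (-y + v)‖ := by
          rw [hg, indicator_of_mem (mem_Ioi.2 (by linarith))]
          congr 3; ring
        have h4 : gw t v ≤ Real.exp (-(η / (2 * t))) * gw t (v - 2 * y) := by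
          unfold gw
          rw [← Real.exp_add]
          apply Real.exp_le_exp.2
          have e : -(η / (2 * t)) + -(v - 2 * y) ^ 2 / (4 * t) = (-(2 * η) - (v - 2 * y) ^ 2) / (4 * t) := by
            field_simp; ring
          rw [e]
          apply div_le_div_of_nonneg_right _ (by positivity)
          have h5 : 1 / 2 ≤ -y + v := by linarith
          have h6 : y * (-y + v) ≥ η * (1 / 2) := mul_le_mul hy h5 (by norm_num) (by linarith)
          nlinarith
        rw [h3]
        have h5 := mul_le_mul_of_nonneg_right h4 (norm_nonneg (f (-y + v)))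
        have h6 : 0 ≤ δ * gw t v := mul_nonneg hδ0 (gw_pos t v).le
        nlinarith
    have h2 : ∫ v in Ioi (0 : ℝ), (δ * gw t v + Real.exp (-(η / (2 * t))) * g (v - 2 * y)) ≤
        ∫ v, (δ * gw t v + Real.exp (-(η / (2 * t))) * g (v - 2 * y)) := by
      apply setIntegral_le_integral hmaj
      filter_upwards with v
      exact add_nonneg (mul_nonneg hδ0 (gw_pos t v).le) (mul_nonneg (Real.exp_pos _).le (hgn _))
    have h3 : ∫ v, (δ * gw t v + Real.exp (-(η / (2 * t))) * g (v - 2 * y)) =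
        δ * Real.sqrt (Real.pi / (1 / (4 * t))) + Real.exp (-(η / (2 * t))) * M0 := by
      rw [integral_add (hgwI.const_mul _) (hgI2.const_mul _), integral_const_mul, integral_const_mul,
        integral_sub_right_eq_self g (2 * y), hg, integral_indicator measurableSet_Ioi]
      congr 2
      rw [← integral_gaussian]
      congr 1; ext v; simp only [gw]; congr 1; ring
    have h4 : Real.sqrt (Real.pi / (1 / (4 * t))) ≤ 1 := by
      refine Real.sqrt_le_iff.2 ⟨by norm_num, ?_⟩
      have : Real.pi / (1 / (4 * t)) = 4 * t * Real.pi := by field_simp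
      rw [this]
      nlinarith [Real.pi_lt_four]
    have h5 : Real.exp (-(η / (2 * t))) ≤ 1 / 100 := by
      have h6 : (5 : ℝ) ≤ η / (2 * t) := by rw [le_div_iff₀ (by positivity)]; linarith [H.hηt]
      have h7 : Real.exp (-(η / (2 * t))) ≤ Real.exp (-5) := Real.exp_le_exp.2 (by linarith)
      have h10 : Real.exp (-5) ≤ 1 / 100 := by
        rw [Real.exp_neg, inv_eq_one_div]
        apply one_div_le_one_div_of_le (by norm_num)
        have h11 : (2.7 : ℝ) ≤ Real.exp 1 := by linarith [Real.exp_one_gt_d9]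
        have h12 : Real.exp 5 = Real.exp 1 ^ 5 := by rw [← Real.exp_nat_mul]; norm_num
        rw [h12]
        calc (100 : ℝ) ≤ 2.7 ^ 5 := by norm_num
          _ ≤ Real.exp 1 ^ 5 := pow_le_pow_left₀ (by norm_num) h11 5
      linarith
    have h6 : Real.exp (-(η / (2 * t))) * M0 ≤ 1 / 100 * M0 := mul_le_mul_of_nonneg_right h5 hM0pos.le
    have h7 : δ * Real.sqrt (Real.pi / (1 / (4 * t))) ≤ δ * 1 := mul_le_mul_of_nonneg_left h4 hδ0
    linarith
  linarith

end Line

end Pool.Agent.KS6_29.HS
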