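import Mathlib
import Pool.Agent.KS6_29.HS.Line5

/-!
# Completed L-functions: growth
-/

set_option autoImplicit false

namespace Pool.Agent.KS6_29.HS

open MeasureTheory Set Filter Topology Complex

open scoped ComplexConjugate

/-- What is used of a completed L-function (centred at `0`). -/
structure Data (F : ℂ → ℂ) (a η B : ℝ) : Prop where
  ha : 1 / 2 ≤ a
  hη : 0 < η
  hη4 : η ≤ 1 / 4
  hB : 1 ≤ B
  diff : Differentiable ℂ F
  sym : ∃ ε : ℂ, ‖ε‖ = 1 ∧ ∀ w, F (-w) = ε * conj (F (conj w))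
  ne : ∀ w : ℂ, a - η < w.re → F w ≠ 0
  im : ∀ w : ℂ, a - η < w.re → |(logDeriv F w).im| ≤ B
  der : ∀ w : ℂ, a - η < w.re → ‖deriv (logDeriv F) w‖ ≤ B
  re : ∀ w : ℂ, a - η < w.re → (logDeriv F (a + w.im * I)).re - B ≤ (logDeriv F w).re
  base : ∀ x : ℝ, -B ≤ (logDeriv F (a + x * I)).re
  growth : ∃ C : ℝ, 0 ≤ C ∧ ∀ w : ℂ, |w.re| ≤ a → ‖F w‖ ≤ C * Real.exp (C * |w.im|)

namespace Data

variable {F : ℂ → ℂ} {a η B : ℝ}

/-- the size of the logarithmic derivative -/
noncomputable def ell (F : ℂ → ℂ) (a x : ℝ) : ℝ := (logDeriv F (a + x * I)).re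

theorem logDeriv_diff (H : Data F a η B) {w : ℂ} (hw : a - η < w.re) :
    DifferentiableAt ℂ (logDeriv F) w := by
  have h1 : DifferentiableAt ℂ (deriv F) w :=
    ((H.diff.analyticAt w).deriv).differentiableAt
  exact h1.div (H.diff w) (H.ne w hw)

theorem hasDeriv (H : Data F a η B) {w : ℂ} (hw : a - η < w.re) :
    HasDerivAt F (logDeriv F w * F w) w := by
  have h1 := (H.diff w).hasDerivAt
  have h2 : logDeriv F w * F w = deriv F w := by
    rw [logDeriv_apply, div_mul_cancel₀ _ (H.ne w hw)]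
  rw [h2]; exact h1

theorem even (H : Data F a η B) (w : ℂ) : ‖F (-w)‖ = ‖F (conj w)‖ := by
  obtain ⟨ε, h1, h2⟩ := H.sym
  rw [h2, norm_mul, h1, one_mul, RCLike.norm_conj]

/-- the exponential formula along a segment -/
theorem seg (H : Data F a η B) {z d : ℂ} (hz : ∀ s : ℝ, s ∈ Icc (0 : ℝ) 1 → a - η < (z + s * d).re) :
    F (z + d) = F z * Complex.exp (∫ s in (0 : ℝ)..1, logDeriv F (z + s * d) * d) := by
  have hc : ∀ s : ℝ, HasDerivAt (fun s : ℝ => z + s * d) d s := by
    intro s
    have h1 : HasDerivAt (fun s : ℝ => (s : ℂ)) 1 s := Complex.ofRealCLM.hasDerivAt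
    simpa using (h1.mul_const d).const_add z
  have hcont : ContinuousOn (fun s : ℝ => logDeriv F (z + s * d) * d) (Icc 0 1) := by
    intro s hs
    have h1 : ContinuousAt (logDeriv F) (z + s * d) := (H.logDeriv_diff (hz s hs)).continuousAt
    have h2 : ContinuousAt (fun s : ℝ => logDeriv F (z + s * d)) s :=
      ContinuousAt.comp (f := fun s : ℝ => z + s * d) h1 (hc s).continuousAt
    exact (h2.mul continuousAt_const).continuousWithinAt
  set k : ℝ → ℂ := fun s => F (z + s * d) * Complex.exp (-∫ u in (0 : ℝ)..s, logDeriv F (z + u * d) * d) with hk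
  have hk0 : k 0 = F z := by simp [hk]
  have hkc : ContinuousOn k (Icc 0 1) := by
    have h1 : ContinuousOn (fun s : ℝ => F (z + s * d)) (Icc 0 1) :=
      (H.diff.continuous.comp (by fun_prop : Continuous fun s : ℝ => z + s * d)).continuousOn
    have h2 : ContinuousOn (fun s : ℝ => ∫ u in (0 : ℝ)..s, logDeriv F (z + u * d) * d) (Icc 0 1) := by
      have := intervalIntegral.continuousOn_primitive_interval
        (f := fun u : ℝ => logDeriv F (z + u * d) * d) (μ := volume) (a := 0) (b := 1)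
        (by rw [uIcc_of_le zero_le_one]; exact hcont.integrableOn_Icc)
      rwa [uIcc_of_le zero_le_one] at this
    exact h1.mul (h2.neg.cexp)
  have hkd : ∀ s ∈ Ico (0 : ℝ) 1, HasDerivWithinAt k 0 (Ici s) s := by
    intro s hs
    have hs' : s ∈ Icc (0 : ℝ) 1 := ⟨hs.1, hs.2.le⟩
    have h1 : HasDerivAt (fun s : ℝ => F (z + s * d)) (logDeriv F (z + s * d) * F (z + s * d) * d) s := by
      have := (H.hasDeriv (hz s hs')).comp s (hc s)
      exact this
    have h2 : HasDerivWithinAt (fun s : ℝ => ∫ u in (0 : ℝ)..s, logDeriv F (z + u * d) * d)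
        (logDeriv F (z + s * d) * d) (Ici s) s := by
      have hIoi : (Icc (0 : ℝ) 1) ∈ 𝓝[>] s := by
        refine mem_of_superset (Ioo_mem_nhdsGT hs.2) ?_
        intro u hu; exact ⟨hs.1.trans hu.1.le, hu.2.le⟩
      apply intervalIntegral.integral_hasDerivWithinAt_right
      · refine ContinuousOn.intervalIntegrable ?_
        rw [uIcc_of_le hs.1]
        exact hcont.mono (Icc_subset_Icc_right hs.2.le)
      · exact ⟨Icc 0 1, hIoi, hcont.aestronglyMeasurable measurableSet_Icc⟩
      · exact (hcont s hs').mono_of_mem_nhdsWithin hIoi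
    have h3 := h1.hasDerivWithinAt.mul (h2.neg.cexp)
    have e : logDeriv F (z + s * d) * F (z + s * d) * d *
        Complex.exp (-∫ u in (0 : ℝ)..s, logDeriv F (z + u * d) * d) +
        F (z + s * d) * (Complex.exp (-∫ u in (0 : ℝ)..s, logDeriv F (z + u * d) * d) *
          -(logDeriv F (z + s * d) * d)) = 0 := by ring
    rw [← e]; exact h3
  have h1 := constant_of_has_deriv_right_zero hkc hkd 1 ⟨zero_le_one, le_rfl⟩
  rw [hk0] at h1
  simp only [hk, Complex.ofReal_one, one_mul] at h1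
  rw [← h1, mul_assoc, ← Complex.exp_add]
  simp

end Data

end Pool.Agent.KS6_29.HS
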