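import Mathlib
import Pool.Agent.KS6_29.HS.Data

/-!
# Completed L-functions: bounds
-/

set_option autoImplicit false

namespace Pool.Agent.KS6_29.HS

open MeasureTheory Set Filter Topology Complex

open scoped ComplexConjugate

namespace Data

variable {F : ℂ → ℂ} {a η B : ℝ}

theorem seg_re (H : Data F a η B) {z d : ℂ} (hz : ∀ s : ℝ, s ∈ Icc (0 : ℝ) 1 → a - η < (z + s * d).re) :
    ‖F (z + d)‖ = ‖F z‖ * Real.exp (∫ s in (0 : ℝ)..1, (logDeriv F (z + s * d) * d).re) ∧
      IntervalIntegrable (fun s : ℝ => (logDeriv F (z + s * d) * d).re) volume 0 1 := by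
  have hc : ∀ s : ℝ, HasDerivAt (fun s : ℝ => z + s * d) d s := by
    intro s
    have h1 : HasDerivAt (fun s : ℝ => (s : ℂ)) 1 s := Complex.ofRealCLM.hasDerivAt
    simpa using (h1.mul_const d).const_add z
  have hcont : ContinuousOn (fun s : ℝ => logDeriv F (z + s * d) * d) (uIcc 0 1) := by
    rw [uIcc_of_le zero_le_one]
    intro s hs
    have h1 : ContinuousAt (logDeriv F) (z + s * d) := (H.logDeriv_diff (hz s hs)).continuousAt
    have h2 : ContinuousAt (fun s : ℝ => logDeriv F (z + s * d)) s :=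
      ContinuousAt.comp (f := fun s : ℝ => z + s * d) h1 (hc s).continuousAt
    exact (h2.mul continuousAt_const).continuousWithinAt
  have hi := hcont.intervalIntegrable (μ := volume)
  constructor
  · rw [H.seg hz, norm_mul, Complex.norm_exp]
    congr 2
    rw [← Complex.reCLM_apply, ← ContinuousLinearMap.intervalIntegral_comp_comm _ hi]
    simp
  · exact (Complex.continuous_re.comp_continuousOn hcont).intervalIntegrable

theorem seg_le (H : Data F a η B) {z d : ℂ} {c : ℝ}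
    (hz : ∀ s : ℝ, s ∈ Icc (0 : ℝ) 1 → a - η < (z + s * d).re)
    (hc : ∀ s : ℝ, s ∈ Icc (0 : ℝ) 1 → (logDeriv F (z + s * d) * d).re ≤ c) :
    ‖F (z + d)‖ ≤ ‖F z‖ * Real.exp c := by
  obtain ⟨h1, h2⟩ := H.seg_re hz
  rw [h1]
  refine mul_le_mul_of_nonneg_left (Real.exp_le_exp.2 ?_) (norm_nonneg _)
  have h3 := intervalIntegral.integral_mono_on zero_le_one h2 (intervalIntegrable_const (c := c))
    (fun s hs => hc s hs)
  simpa using h3

theorem seg_ge (H : Data F a η B) {z d : ℂ} {c : ℝ}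
    (hz : ∀ s : ℝ, s ∈ Icc (0 : ℝ) 1 → a - η < (z + s * d).re)
    (hc : ∀ s : ℝ, s ∈ Icc (0 : ℝ) 1 → c ≤ (logDeriv F (z + s * d) * d).re) :
    ‖F z‖ * Real.exp c ≤ ‖F (z + d)‖ := by
  obtain ⟨h1, h2⟩ := H.seg_re hz
  rw [h1]
  refine mul_le_mul_of_nonneg_left (Real.exp_le_exp.2 ?_) (norm_nonneg _)
  have h3 := intervalIntegral.integral_mono_on zero_le_one (intervalIntegrable_const (c := c)) h2
    (fun s hs => hc s hs)
  simpa using h3

/-- the logarithmic derivative along a horizontal line -/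
theorem logd_le (H : Data F a η B) (x : ℝ) {σ : ℝ} (hσ : a ≤ σ) :
    ‖logDeriv F (σ + x * I) - logDeriv F (a + x * I)‖ ≤ B * (σ - a) := by
  have hη := H.hη
  have hconv : Convex ℝ {w : ℂ | a - η < w.re} := convex_halfSpace_re_gt (a - η)
  have m1 : (a : ℂ) + x * I ∈ {w : ℂ | a - η < w.re} := by
    show a - η < ((a : ℂ) + x * I).re
    simp; exact hη
  have m2 : (σ : ℂ) + x * I ∈ {w : ℂ | a - η < w.re} := by
    show a - η < ((σ : ℂ) + x * I).re
    simp; linarith
  have h1 := Convex.norm_image_sub_le_of_norm_deriv_le (𝕜 := ℂ) (s := {w : ℂ | a - η < w.re})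
    (f := logDeriv F) (C := B) (x := (a : ℂ) + x * I) (y := (σ : ℂ) + x * I)
    (fun w hw => H.logDeriv_diff hw) (fun w hw => H.der w hw) hconv m1 m2
  have e : (σ : ℂ) + x * I - (a + x * I) = ((σ - a : ℝ) : ℂ) := by push_cast; ring
  rw [e, Complex.norm_real, Real.norm_of_nonneg (by linarith)] at h1
  exact h1

theorem re_le (H : Data F a η B) (x : ℝ) {σ : ℝ} (hσ : a ≤ σ) :
    (logDeriv F (σ + x * I)).re ≤ ell F a x + B * (σ - a) := by
  have h1 := (Complex.re_le_norm _).trans (H.logd_le x hσ)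
  rw [Complex.sub_re] at h1
  unfold ell
  linarith

theorem re_ge (H : Data F a η B) (x : ℝ) {σ : ℝ} (hσ : a - η < σ) :
    ell F a x - B ≤ (logDeriv F (σ + x * I)).re := by
  have := H.re (σ + x * I) (by simpa using hσ)
  unfold ell
  simpa using this

theorem ell_ge (H : Data F a η B) (x : ℝ) : -B ≤ ell F a x := H.base x

theorem right_le' (H : Data F a η B) (x : ℝ) {s : ℝ} (hs : 0 ≤ s) :
    ‖F (a + s + x * I)‖ ≤ ‖F (a + x * I)‖ * Real.exp (s * ell F a x + B * s ^ 2) := by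
  have hB := H.hB
  have hη := H.hη
  have h1 := H.seg_le (z := a + x * I) (d := (s : ℂ)) (c := s * ell F a x + B * s ^ 2)
    (fun u hu => by simp; nlinarith [hu.1]) (fun u hu => by
      have h2 := H.re_le x (σ := a + u * s) (by nlinarith [hu.1])
      have e : (a : ℂ) + x * I + u * s = ((a + u * s : ℝ) : ℂ) + x * I := by push_cast; ring
      rw [e, mul_comm _ (s : ℂ), Complex.re_ofReal_mul]
      have h4 : (logDeriv F (((a + u * s : ℝ) : ℂ) + x * I)).re ≤ ell F a x + B * s := by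
        have : B * (a + u * s - a) ≤ B * s := by
          apply mul_le_mul_of_nonneg_left _ (by linarith)
          nlinarith [hu.2]
        linarith
      nlinarith [mul_le_mul_of_nonneg_left h4 hs])
  have e : (a : ℂ) + s + x * I = a + x * I + s := by ring
  rw [e]; exact h1

theorem right_le (H : Data F a η B) (x : ℝ) {s : ℝ} (hs : 0 ≤ s) :
    ‖F (a + s + x * I)‖ ≤ ‖F (a + x * I)‖ * Real.exp (s * |ell F a x| + B * s ^ 2) := by
  refine (H.right_le' x hs).trans (mul_le_mul_of_nonneg_left (Real.exp_le_exp.2 ?_) (norm_nonneg _))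
  have := mul_le_mul_of_nonneg_left (le_abs_self (ell F a x)) hs
  linarith

theorem right_ge' (H : Data F a η B) (x : ℝ) {s : ℝ} (hs : 0 ≤ s) :
    ‖F (a + x * I)‖ * Real.exp (s * (ell F a x - B)) ≤ ‖F (a + s + x * I)‖ := by
  have hB := H.hB
  have hη := H.hη
  have h1 := H.seg_ge (z := a + x * I) (d := (s : ℂ)) (c := s * (ell F a x - B))
    (fun u hu => by simp; nlinarith [hu.1]) (fun u hu => by
      have h2 := H.re_ge x (σ := a + u * s) (by nlinarith [hu.1])
      have e : (a : ℂ) + x * I + u * s = ((a + u * s : ℝ) : ℂ) + x * I := by push_cast; ring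
      rw [e, mul_comm _ (s : ℂ), Complex.re_ofReal_mul]
      exact mul_le_mul_of_nonneg_left h2 hs)
  have e : (a : ℂ) + s + x * I = a + x * I + s := by ring
  rw [e]; exact h1

theorem right_ge (H : Data F a η B) (x : ℝ) {s : ℝ} (hs : 0 ≤ s) :
    ‖F (a + x * I)‖ * Real.exp (-(2 * B * s)) ≤ ‖F (a + s + x * I)‖ := by
  refine le_trans (mul_le_mul_of_nonneg_left (Real.exp_le_exp.2 ?_) (norm_nonneg _)) (H.right_ge' x hs)
  have h3 := H.ell_ge x
  nlinarith [mul_le_mul_of_nonneg_left (by linarith : -(2 * B) ≤ ell F a x - B) hs]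

theorem vert_ge (H : Data F a η B) (x : ℝ) :
    ‖F a‖ * Real.exp (-(B * |x|)) ≤ ‖F (a + x * I)‖ := by
  have hB := H.hB
  have hη := H.hη
  refine H.seg_ge (z := a) (d := (x : ℂ) * I) (c := -(B * |x|))
    (fun u hu => by simp; exact hη) (fun u hu => by
      have h2 := H.im (a + u * (x * I)) (by simp; exact hη)
      have e : (logDeriv F (a + u * (x * I)) * (x * I)).re = -(x * (logDeriv F (a + u * (x * I))).im) := by
        simp [Complex.mul_re]; ring
      rw [e, neg_le_neg_iff]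
      calc x * (logDeriv F (a + u * (x * I))).im ≤ |x * (logDeriv F (a + u * (x * I))).im| := le_abs_self _
        _ = |x| * |(logDeriv F (a + u * (x * I))).im| := abs_mul _ _
        _ ≤ |x| * B := mul_le_mul_of_nonneg_left h2 (abs_nonneg _)
        _ = B * |x| := mul_comm _ _)

theorem ell_le (H : Data F a η B) (x : ℝ) : ell F a x ≤ |ell F a 0| + B * |x| := by
  have hη := H.hη
  have hconv : Convex ℝ {w : ℂ | a - η < w.re} := convex_halfSpace_re_gt (a - η)
  have m1 : (a : ℂ) ∈ {w : ℂ | a - η < w.re} := by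
    show a - η < ((a : ℂ)).re
    simp; exact hη
  have m2 : (a : ℂ) + x * I ∈ {w : ℂ | a - η < w.re} := by
    show a - η < ((a : ℂ) + x * I).re
    simp; exact hη
  have h1 := Convex.norm_image_sub_le_of_norm_deriv_le (𝕜 := ℂ) (s := {w : ℂ | a - η < w.re})
    (f := logDeriv F) (C := B) (x := (a : ℂ)) (y := (a : ℂ) + x * I)
    (fun w hw => H.logDeriv_diff hw) (fun w hw => H.der w hw) hconv m1 m2
  have e : (a : ℂ) + x * I - a = (x : ℂ) * I := by ring
  rw [e, norm_mul, Complex.norm_real, Complex.norm_I, mul_one, Real.norm_eq_abs] at h1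
  have h2 := (Complex.re_le_norm _).trans h1
  rw [Complex.sub_re] at h2
  have h3 : (logDeriv F (a : ℂ)).re = ell F a 0 := by unfold ell; simp
  rw [h3] at h2
  have h4 := le_abs_self (ell F a 0)
  unfold ell at *
  linarith

/-- the principle of Phragmén and Lindelöf -/
theorem pl {a : ℝ} (ha : 0 < a) {h : ℂ → ℂ} {K0 K1 M : ℝ} (hK0 : 0 ≤ K0) (hK1 : 0 ≤ K1)
    (hd : ∀ u : ℂ, |u.re| ≤ a → DifferentiableAt ℂ h u)
    (hb : ∀ u : ℂ, |u.re| ≤ a → ‖h u‖ ≤ K0 * Real.exp (K1 * |u.im|))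
    (hM : ∀ u : ℂ, |u.re| = a → ‖h u‖ ≤ M) {w : ℂ} (hw : |w.re| ≤ a) : ‖h w‖ ≤ M := by
  obtain ⟨hw1, hw2⟩ := abs_le.1 hw
  refine PhragmenLindelof.vertical_strip (a := -a) (b := a) (f := h) (C := M) ?_ ?_ ?_ ?_ hw1 hw2
  · apply DifferentiableOn.diffContOnCl
    intro u hu
    have hu2 : u ∈ Complex.re ⁻¹' (Icc (-a) a) := by
      have h1 : closure (Complex.re ⁻¹' Ioo (-a) a) ⊆ Complex.re ⁻¹' (Icc (-a) a) :=
        closure_minimal (preimage_mono Ioo_subset_Icc_self) (isClosed_Icc.preimage continuous_re)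
      exact h1 hu
    exact (hd u (abs_le.2 hu2)).differentiableWithinAt
  · refine ⟨1 / a, ?_, K1 * a, ?_⟩
    · rw [show a - -a = 2 * a by ring, div_lt_div_iff₀ ha (by linarith)]
      nlinarith [Real.pi_gt_three]
    · refine Asymptotics.IsBigO.of_bound K0 ?_
      rw [eventually_inf_principal]
      refine Eventually.of_forall fun u hu => ?_
      obtain ⟨hu1, hu2⟩ := hu
      refine (hb u (abs_le.2 ⟨hu1.le, hu2.le⟩)).trans (mul_le_mul_of_nonneg_left ?_ hK0)
      rw [Real.norm_of_nonneg (Real.exp_pos _).le]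
      apply Real.exp_le_exp.2
      have h7 : |u.im| / a ≤ Real.exp (1 / a * |u.im|) := by
        have := Real.add_one_le_exp (1 / a * |u.im|)
        have e : 1 / a * |u.im| = |u.im| / a := by ring
        rw [e] at this ⊢; linarith
      have h8 : |u.im| ≤ a * Real.exp (1 / a * |u.im|) := by
        rw [div_le_iff₀ ha] at h7; linarith
      have h9 := mul_le_mul_of_nonneg_left h8 hK1
      linarith
  · intro u hu
    exact hM u (by rw [hu, abs_neg, abs_of_pos ha])
  · intro u hu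
    exact hM u (by rw [hu, abs_of_pos ha])

theorem at_add (u : ℂ) (c : ℝ) :
    F (u + c) = F (a + ((u.re + c - a : ℝ) : ℂ) + u.im * I) := by
  congr 1
  conv_lhs => rw [← Complex.re_add_im u]
  push_cast; ring

theorem at_sub (H : Data F a η B) (u : ℂ) (c : ℝ) :
    ‖F (u - c)‖ = ‖F (a + ((c - u.re - a : ℝ) : ℂ) + u.im * I)‖ := by
  have h1 := H.even (c - u)
  have e : -((c : ℂ) - u) = u - c := by ring
  rw [e] at h1
  rw [h1]
  congr 2
  apply Complex.ext <;> simp

/-- the inequality from the principle of Phragmén and Lindelöf -/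
theorem strip (H : Data F a η B) {w : ℂ} (hw : |w.re| ≤ a) :
    ‖F w‖ ^ 2 * ‖F (w + (4 * a : ℝ))‖ ≤
      Real.exp (16 * a ^ 2 * B + 4 * a * B) * (‖F (w + (2 * a : ℝ))‖ ^ 2 * ‖F (w - (2 * a : ℝ))‖) := by
  have ha := H.ha
  have ha0 : 0 < a := by linarith
  have hB := H.hB
  have hη := H.hη
  have hne1 : ∀ u : ℂ, |u.re| ≤ a → F (u + (2 * a : ℝ)) ≠ 0 := by
    intro u hu
    refine H.ne _ ?_
    have := (abs_le.1 hu).1
    simp; linarith
  have hne2 : ∀ u : ℂ, |u.re| ≤ a → F (u - (2 * a : ℝ)) ≠ 0 := by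
    intro u hu
    rw [← norm_ne_zero_iff, H.at_sub, norm_ne_zero_iff]
    refine H.ne _ ?_
    have := (abs_le.1 hu).2
    simp; linarith
  have hFa : 0 < ‖F a‖ := norm_pos_iff.2 (H.ne _ (by simp; exact hη))
  obtain ⟨C, hC0, hC⟩ := H.growth
  set h : ℂ → ℂ := fun u => F u ^ 2 * F (u + (4 * a : ℝ)) / (F (u + (2 * a : ℝ)) ^ 2 * F (u - (2 * a : ℝ)))
    with hh
  have hdiff : ∀ c : ℝ, ∀ u : ℂ, DifferentiableAt ℂ (fun u => F (u + c)) u := fun c u =>
    (H.diff _).comp u (by fun_prop)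
  have hdiff' : ∀ c : ℝ, ∀ u : ℂ, DifferentiableAt ℂ (fun u => F (u - c)) u := fun c u =>
    (H.diff _).comp u (by fun_prop)
  set L0 : ℝ := |ell F a 0| with hL0
  have hL00 : 0 ≤ L0 := abs_nonneg _
  -- lower bound for the denominators
  have hlow : ∀ (x s : ℝ), 0 ≤ s → s ≤ 2 * a → ‖F a‖ * Real.exp (-(B * |x|) - 4 * a * B) ≤
      ‖F (a + s + x * I)‖ := by
    intro x s hs0 hs
    refine le_trans ?_ (H.right_ge x hs0)
    refine le_trans ?_ (mul_le_mul_of_nonneg_right (H.vert_ge x) (Real.exp_pos _).le)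
    have e : ‖F a‖ * Real.exp (-(B * |x|)) * Real.exp (-(2 * B * s)) =
        ‖F a‖ * Real.exp (-(B * |x|) + -(2 * B * s)) := by
      rw [Real.exp_add]; ring
    rw [e]
    refine mul_le_mul_of_nonneg_left (Real.exp_le_exp.2 ?_) (norm_nonneg _)
    nlinarith [mul_le_mul_of_nonneg_left hs (by linarith : 0 ≤ 2 * B)]
  have hbound : ∀ u : ℂ, |u.re| ≤ a → ‖h u‖ ≤
      (C ^ 3 * Real.exp (4 * a * L0 + 16 * a ^ 2 * B + 12 * a * B) / ‖F a‖ ^ 3) *
        Real.exp ((3 * C + 4 * a * B + 3 * B) * |u.im|) := by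
    intro u hu
    obtain ⟨hu1, hu2⟩ := abs_le.1 hu
    set x : ℝ := u.im with hx
    have hx0 : 0 ≤ |x| := abs_nonneg x
    have b1 : ‖F u‖ ≤ C * Real.exp (C * |x|) := hC u hu
    have b2 : ‖F (a + x * I)‖ ≤ C * Real.exp (C * |x|) := by
      have := hC (a + x * I) (by simp [abs_of_pos ha0])
      simpa using this
    have b3 : ‖F (u + (4 * a : ℝ))‖ ≤ C * Real.exp (C * |x|) *
        Real.exp (4 * a * L0 + 4 * a * B * |x| + 16 * a ^ 2 * B) := by
      rw [at_add (F := F) (a := a) u]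
      refine (H.right_le' x (s := u.re + 4 * a - a) (by linarith)).trans ?_
      refine mul_le_mul b2 (Real.exp_le_exp.2 ?_) (Real.exp_pos _).le (by positivity)
      have q1 := H.ell_le x
      have q2 : u.re + 4 * a - a ≤ 4 * a := by linarith
      have q3 : (u.re + 4 * a - a) ^ 2 ≤ (4 * a) ^ 2 := pow_le_pow_left₀ (by linarith) q2 2
      have q4 : 0 ≤ L0 + B * |x| := by positivity
      have q5 : (u.re + 4 * a - a) * ell F a x ≤ 4 * a * (L0 + B * |x|) := by
        calc (u.re + 4 * a - a) * ell F a x ≤ (u.re + 4 * a - a) * (L0 + B * |x|) :=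
              mul_le_mul_of_nonneg_left q1 (by linarith)
          _ ≤ _ := mul_le_mul_of_nonneg_right q2 q4
      nlinarith [mul_le_mul_of_nonneg_left q3 (by linarith : 0 ≤ B)]
    have b4 : ‖F a‖ * Real.exp (-(B * |x|) - 4 * a * B) ≤ ‖F (u + (2 * a : ℝ))‖ := by
      rw [at_add (F := F) (a := a) u]
      exact hlow x _ (by linarith) (by linarith)
    have b5 : ‖F a‖ * Real.exp (-(B * |x|) - 4 * a * B) ≤ ‖F (u - (2 * a : ℝ))‖ := by
      rw [H.at_sub]
      exact hlow x _ (by linarith) (by linarith)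
    have p4 : 0 < ‖F (u + (2 * a : ℝ))‖ := norm_pos_iff.2 (hne1 u hu)
    have p5 : 0 < ‖F (u - (2 * a : ℝ))‖ := norm_pos_iff.2 (hne2 u hu)
    rw [hh]
    simp only
    rw [norm_div, norm_mul, norm_mul, norm_pow, norm_pow, div_le_iff₀ (by positivity)]
    have num : ‖F u‖ ^ 2 * ‖F (u + (4 * a : ℝ))‖ ≤ (C * Real.exp (C * |x|)) ^ 2 *
        (C * Real.exp (C * |x|) * Real.exp (4 * a * L0 + 4 * a * B * |x| + 16 * a ^ 2 * B)) := by
      gcongr
    have den : (‖F a‖ * Real.exp (-(B * |x|) - 4 * a * B)) ^ 2 *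
        (‖F a‖ * Real.exp (-(B * |x|) - 4 * a * B)) ≤
        ‖F (u + (2 * a : ℝ))‖ ^ 2 * ‖F (u - (2 * a : ℝ))‖ := by
      gcongr
    refine num.trans ?_
    refine le_trans (le_of_eq ?_) (mul_le_mul_of_nonneg_left den (by positivity))
    have hFa' := hFa.ne'
    have e1 : Real.exp (4 * a * L0 + 4 * a * B * |x| + 16 * a ^ 2 * B) =
        Real.exp (4 * a * L0 + 16 * a ^ 2 * B + 12 * a * B) * (Real.exp (4 * a * B * |x|) *
          (Real.exp (-(4 * a * B)) ^ 3)) := by
      rw [← Real.exp_nat_mul, ← Real.exp_add, ← Real.exp_add]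
      congr 1; push_cast; ring
    have e2 : Real.exp ((3 * C + 4 * a * B + 3 * B) * |x|) =
        Real.exp (C * |x|) ^ 3 * Real.exp (4 * a * B * |x|) * Real.exp (B * |x|) ^ 3 := by
      rw [← Real.exp_nat_mul, ← Real.exp_nat_mul, ← Real.exp_add, ← Real.exp_add]
      congr 1; push_cast; ring
    have e3 : Real.exp (-(B * |x|) - 4 * a * B) = (Real.exp (B * |x|))⁻¹ * Real.exp (-(4 * a * B)) := by
      rw [← Real.exp_neg, ← Real.exp_add]; congr 1
    rw [e1, e2, e3]
    have hz := (Real.exp_pos (B * |x|)).ne'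
    field_simp
  have hbdry : ∀ u : ℂ, |u.re| = a → ‖h u‖ ≤ Real.exp (16 * a ^ 2 * B + 4 * a * B) := by
    intro u hu
    have p4 : 0 < ‖F (u + (2 * a : ℝ))‖ := norm_pos_iff.2 (hne1 u hu.le)
    have p5 : 0 < ‖F (u - (2 * a : ℝ))‖ := norm_pos_iff.2 (hne2 u hu.le)
    rw [hh]
    simp only
    rw [norm_div, norm_mul, norm_mul, norm_pow, norm_pow, div_le_iff₀ (by positivity)]
    set x : ℝ := u.im with hx
    have hua : u.re = a ∨ u.re = -a := by
      rcases abs_cases u.re with ⟨h1, _⟩ | ⟨h1, _⟩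
      · left; linarith
      · right; linarith
    rcases hua with h1 | h1
    · have q1 : F u = F (a + x * I) := by
        congr 1
        conv_lhs => rw [← Complex.re_add_im u, h1]
      have q2 : ‖F (u - (2 * a : ℝ))‖ = ‖F (a + x * I)‖ := by
        rw [H.at_sub, h1]
        congr 2
        push_cast; ring
      have q3 : ‖F (a + x * I)‖ * Real.exp (2 * a * (ell F a x - B)) ≤ ‖F (u + (2 * a : ℝ))‖ := by
        rw [at_add (F := F) (a := a) u, h1]
        have := H.right_ge' x (s := a + 2 * a - a) (by linarith)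
        rwa [show a + 2 * a - a = 2 * a by ring] at this ⊢
      have q4 : ‖F (u + (4 * a : ℝ))‖ ≤ ‖F (a + x * I)‖ *
          Real.exp (4 * a * ell F a x + B * (4 * a) ^ 2) := by
        rw [at_add (F := F) (a := a) u, h1]
        have := H.right_le' x (s := a + 4 * a - a) (by linarith)
        rwa [show a + 4 * a - a = 4 * a by ring] at this ⊢
      rw [q1, q2]
      calc ‖F (a + x * I)‖ ^ 2 * ‖F (u + (4 * a : ℝ))‖ ≤ ‖F (a + x * I)‖ ^ 2 * (‖F (a + x * I)‖ *
            Real.exp (4 * a * ell F a x + B * (4 * a) ^ 2)) := by gcongr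
        _ = Real.exp (16 * a ^ 2 * B + 4 * a * B) *
            ((‖F (a + x * I)‖ * Real.exp (2 * a * (ell F a x - B))) ^ 2 * ‖F (a + x * I)‖) := by
            have : Real.exp (4 * a * ell F a x + B * (4 * a) ^ 2) =
                Real.exp (16 * a ^ 2 * B + 4 * a * B) * Real.exp (2 * a * (ell F a x - B)) ^ 2 := by
              rw [← Real.exp_nat_mul, ← Real.exp_add]; congr 1; push_cast; ring
            rw [this]; ring
        _ ≤ _ := by gcongr
    · have q1 : ‖F u‖ = ‖F (a + x * I)‖ := by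
        have := H.at_sub u 0
        simp only [Complex.ofReal_zero, sub_zero] at this
        rw [this, h1]
        congr 2
        push_cast; ring
      have q2 : F (u + (2 * a : ℝ)) = F (a + x * I) := by
        rw [at_add (F := F) (a := a) u, h1]
        congr 1
        push_cast; ring
      have q3 : ‖F (u - (2 * a : ℝ))‖ = ‖F (u + (4 * a : ℝ))‖ := by
        rw [H.at_sub, at_add (F := F) (a := a) u, h1]
        congr 2
        push_cast; ring
      rw [q1, q2, q3]
      have h2 : 1 ≤ Real.exp (16 * a ^ 2 * B + 4 * a * B) := Real.one_le_exp (by positivity)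
      have h3 : 0 ≤ ‖F (a + x * I)‖ ^ 2 * ‖F (u + (4 * a : ℝ))‖ := by positivity
      nlinarith
  have key := pl ha0 (h := h) (by positivity) (by positivity) (fun u hu =>
    (((H.diff u).pow 2).mul (hdiff _ u)).div (((hdiff _ u).pow 2).mul (hdiff' _ u))
      (mul_ne_zero (pow_ne_zero 2 (hne1 u hu)) (hne2 u hu))) hbound hbdry hw
  have p4 : 0 < ‖F (w + (2 * a : ℝ))‖ := norm_pos_iff.2 (hne1 w hw)
  have p5 : 0 < ‖F (w - (2 * a : ℝ))‖ := norm_pos_iff.2 (hne2 w hw)
  rw [hh] at key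
  simp only at key
  rwa [norm_div, norm_mul, norm_mul, norm_pow, norm_pow, div_le_iff₀ (by positivity)] at key

/-- the bound in the middle -/
theorem mid (H : Data F a η B) (x : ℝ) {σ : ℝ} (hσ : |σ| ≤ a) :
    ‖F (σ + x * I)‖ ≤ Real.exp (14 * a ^ 2 * B + 4 * a * B) * ‖F (a + x * I)‖ := by
  have ha := H.ha
  have ha0 : 0 < a := by linarith
  have hB := H.hB
  have hη := H.hη
  obtain ⟨h1, h2⟩ := abs_le.1 hσ
  have h3 := H.strip (w := σ + x * I) (by simpa using hσ)
  set w : ℂ := (σ : ℂ) + x * I with hw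
  have hwr : w.re = σ := by simp [hw]
  have hwi : w.im = x := by simp [hw]
  set E : ℝ := ell F a x with hE
  set P : ℝ := ‖F (a + x * I)‖ with hP
  have hP0 : 0 < P := norm_pos_iff.2 (H.ne _ (by simp; exact hη))
  have q4 : P * Real.exp ((3 * a + σ) * (E - B)) ≤ ‖F (w + (4 * a : ℝ))‖ := by
    rw [at_add (F := F) (a := a) w, hwr, hwi]
    have := H.right_ge' x (s := σ + 4 * a - a) (by linarith)
    rw [show σ + 4 * a - a = 3 * a + σ by ring] at this ⊢
    exact this
  have q2 : ‖F (w + (2 * a : ℝ))‖ ≤ P * Real.exp ((a + σ) * E + B * (2 * a) ^ 2) := by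
    rw [at_add (F := F) (a := a) w, hwr, hwi]
    have := H.right_le' x (s := σ + 2 * a - a) (by linarith)
    rw [show σ + 2 * a - a = a + σ by ring] at this ⊢
    refine this.trans (mul_le_mul_of_nonneg_left (Real.exp_le_exp.2 ?_) hP0.le)
    have : (a + σ) ^ 2 ≤ (2 * a) ^ 2 := pow_le_pow_left₀ (by linarith) (by linarith) 2
    nlinarith [mul_le_mul_of_nonneg_left this (by linarith : 0 ≤ B)]
  have q3 : ‖F (w - (2 * a : ℝ))‖ ≤ P * Real.exp ((a - σ) * E + B * (2 * a) ^ 2) := by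
    rw [H.at_sub, hwr, hwi]
    have := H.right_le' x (s := 2 * a - σ - a) (by linarith)
    rw [show 2 * a - σ - a = a - σ by ring] at this ⊢
    refine this.trans (mul_le_mul_of_nonneg_left (Real.exp_le_exp.2 ?_) hP0.le)
    have : (a - σ) ^ 2 ≤ (2 * a) ^ 2 := pow_le_pow_left₀ (by linarith) (by linarith) 2
    nlinarith [mul_le_mul_of_nonneg_left this (by linarith : 0 ≤ B)]
  have h4 : ‖F w‖ ^ 2 * (P * Real.exp ((3 * a + σ) * (E - B))) ≤
      Real.exp (16 * a ^ 2 * B + 4 * a * B) * ((P * Real.exp ((a + σ) * E + B * (2 * a) ^ 2)) ^ 2 *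
        (P * Real.exp ((a - σ) * E + B * (2 * a) ^ 2))) := by
    calc ‖F w‖ ^ 2 * (P * Real.exp ((3 * a + σ) * (E - B))) ≤ ‖F w‖ ^ 2 * ‖F (w + (4 * a : ℝ))‖ := by
          gcongr
      _ ≤ _ := h3
      _ ≤ _ := by gcongr
  have h5 : ‖F w‖ ^ 2 ≤ (Real.exp (14 * a ^ 2 * B + 4 * a * B) * P) ^ 2 := by
    have hpos : 0 < P * Real.exp ((3 * a + σ) * (E - B)) := by positivity
    refine le_of_mul_le_mul_right (h4.trans ?_) hpos
    have e : Real.exp (16 * a ^ 2 * B + 4 * a * B) * ((P * Real.exp ((a + σ) * E + B * (2 * a) ^ 2)) ^ 2 *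
        (P * Real.exp ((a - σ) * E + B * (2 * a) ^ 2))) =
        P ^ 3 * Real.exp (16 * a ^ 2 * B + 4 * a * B + 2 * ((a + σ) * E + B * (2 * a) ^ 2) +
          ((a - σ) * E + B * (2 * a) ^ 2)) := by
      have e1 : Real.exp (2 * ((a + σ) * E + B * (2 * a) ^ 2)) =
          Real.exp ((a + σ) * E + B * (2 * a) ^ 2) ^ 2 := by
        rw [← Real.exp_nat_mul]; norm_num
      rw [Real.exp_add (16 * a ^ 2 * B + 4 * a * B + 2 * ((a + σ) * E + B * (2 * a) ^ 2)),
        Real.exp_add (16 * a ^ 2 * B + 4 * a * B) (2 * ((a + σ) * E + B * (2 * a) ^ 2)), e1]; ring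
    have e' : (Real.exp (14 * a ^ 2 * B + 4 * a * B) * P) ^ 2 * (P * Real.exp ((3 * a + σ) * (E - B))) =
        P ^ 3 * Real.exp (2 * (14 * a ^ 2 * B + 4 * a * B) + (3 * a + σ) * (E - B)) := by
      have e1 : Real.exp (2 * (14 * a ^ 2 * B + 4 * a * B)) =
          Real.exp (14 * a ^ 2 * B + 4 * a * B) ^ 2 := by
        rw [← Real.exp_nat_mul]; norm_num
      rw [Real.exp_add (2 * (14 * a ^ 2 * B + 4 * a * B)), e1]; ring
    rw [e, e']
    refine mul_le_mul_of_nonneg_left (Real.exp_le_exp.2 ?_) (by positivity)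
    nlinarith [mul_le_mul_of_nonneg_right (by linarith : 3 * a + σ ≤ 4 * a) (by linarith : 0 ≤ B)]
  exact (pow_le_pow_iff_left₀ (norm_nonneg _) (by positivity) (by norm_num)).1 h5

end Data

end Pool.Agent.KS6_29.HS
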