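import Mathlib
import Pool.Agent.KS6_29.HS.Data2

/-!
# Completed L-functions: the heat flow
-/

set_option autoImplicit false

namespace Pool.Agent.KS6_29.HS

open MeasureTheory Set Filter Topology Complex

open scoped ComplexConjugate

/-- The heat flow. -/
noncomputable def flow (F : ℂ → ℂ) (t : ℝ) (w : ℂ) : ℂ := ∫ v : ℝ, (gw t v : ℂ) * F (w + v)

/-- Half of the integral. -/
noncomputable def half (F : ℂ → ℂ) (t : ℝ) (w : ℂ) : ℂ := ∫ v in Ioi (0 : ℝ), (gw t v : ℂ) * F (w + v)

namespace Data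

variable {F : ℂ → ℂ} {a η B : ℝ}

theorem ell_cont (H : Data F a η B) : Continuous (ell F a) := by
  rw [continuous_iff_continuousAt]
  intro x
  have h1 : ContinuousAt (logDeriv F) (a + x * I) := (H.logDeriv_diff (by simp; exact H.hη)).continuousAt
  have h2 : ContinuousAt (fun x : ℝ => logDeriv F (a + x * I)) x :=
    ContinuousAt.comp (f := fun x : ℝ => (a : ℂ) + x * I) h1 (by fun_prop)
  exact Complex.continuous_re.continuousAt.comp h2

/-- growth on horizontal strips -/
theorem grow (H : Data F a η B) {R : ℝ} (hR : 0 ≤ R) : ∃ M : ℝ, 0 < M ∧ ∀ w : ℂ, |w.im| ≤ R →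
    ‖F w‖ ≤ M * Real.exp ((B + 1 / 2) * w.re ^ 2) := by
  have ha := H.ha
  have hB := H.hB
  obtain ⟨M1, hM1⟩ := (isCompact_Icc (a := -R) (b := R)).exists_bound_of_continuousOn
    (f := fun x : ℝ => F (a + x * I)) (H.diff.continuous.comp (by fun_prop)).continuousOn
  obtain ⟨M2, hM2⟩ := (isCompact_Icc (a := -R) (b := R)).exists_bound_of_continuousOn
    (f := ell F a) H.ell_cont.continuousOn
  obtain ⟨C, hC0, hC⟩ := H.growth
  have hM10 : 0 ≤ M1 := (norm_nonneg _).trans (hM1 0 ⟨by linarith, hR⟩)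
  have hexp : ∀ w : ℂ, 1 ≤ Real.exp ((B + 1 / 2) * w.re ^ 2) := fun w =>
    Real.one_le_exp (by positivity)
  have hright : ∀ w : ℂ, |w.im| ≤ R → a ≤ w.re →
      ‖F w‖ ≤ (M1 * Real.exp (M2 ^ 2 / 2)) * Real.exp ((B + 1 / 2) * w.re ^ 2) := by
    intro w hw hwa
    have h1 := H.right_le w.im (s := w.re - a) (by linarith)
    have e : (a : ℂ) + ((w.re - a : ℝ) : ℂ) + w.im * I = w := by
      conv_rhs => rw [← Complex.re_add_im w]
      push_cast; ring
    rw [e] at h1
    have h2 := hM1 w.im (abs_le.1 hw)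
    have h3 := hM2 w.im (abs_le.1 hw)
    rw [Real.norm_eq_abs] at h3
    rw [mul_assoc, ← Real.exp_add]
    refine h1.trans (mul_le_mul h2 (Real.exp_le_exp.2 ?_) (Real.exp_pos _).le hM10)
    have h4 : (w.re - a) * |ell F a w.im| ≤ (w.re - a) ^ 2 / 2 + M2 ^ 2 / 2 := by
      have h5 : (w.re - a) * |ell F a w.im| ≤ (w.re - a) * M2 := mul_le_mul_of_nonneg_left h3 (by linarith)
      nlinarith [sq_nonneg (w.re - a - M2)]
    have h5 : (w.re - a) ^ 2 ≤ w.re ^ 2 := pow_le_pow_left₀ (by linarith) (by linarith) 2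
    nlinarith [mul_le_mul_of_nonneg_left h5 (by linarith : 0 ≤ B + 1 / 2)]
  refine ⟨M1 * Real.exp (M2 ^ 2 / 2) + C * Real.exp (C * R) + 1, by positivity, fun w hw => ?_⟩
  have hE := (Real.exp_pos ((B + 1 / 2) * w.re ^ 2)).le
  have q1 : 0 ≤ M1 * Real.exp (M2 ^ 2 / 2) := by positivity
  have q2 : 0 ≤ C * Real.exp (C * R) := by positivity
  rcases le_total |w.re| a with h | h
  · have h1 := hC w h
    have h2 : Real.exp (C * |w.im|) ≤ Real.exp (C * R) :=
      Real.exp_le_exp.2 (mul_le_mul_of_nonneg_left hw hC0)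
    have h3 : ‖F w‖ ≤ C * Real.exp (C * R) := h1.trans (mul_le_mul_of_nonneg_left h2 hC0)
    have h4 := hexp w
    nlinarith
  · rcases le_total 0 w.re with h0 | h0
    · rw [abs_of_nonneg h0] at h
      have := hright w hw h
      nlinarith
    · rw [abs_of_nonpos h0] at h
      have h1 := hright (conj (-w)) (by simpa using hw) (by simpa using h)
      have h2 := H.even (-w)
      rw [neg_neg] at h2
      rw [← h2] at h1
      have h3 : (conj (-w)).re ^ 2 = w.re ^ 2 := by simp
      rw [h3] at h1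
      nlinarith

/-- growth of the derivative -/
theorem growd (H : Data F a η B) {R : ℝ} (hR : 0 ≤ R) : ∃ M : ℝ, 0 < M ∧ ∀ w : ℂ, |w.im| ≤ R →
    ‖deriv F w‖ ≤ M * Real.exp ((2 * B + 1) * w.re ^ 2) := by
  have hB := H.hB
  obtain ⟨M, hM0, hM⟩ := H.grow (R := R + 1) (by linarith)
  refine ⟨M * Real.exp (2 * B + 1), by positivity, fun w hw => ?_⟩
  have h1 := Complex.norm_deriv_le_of_forall_mem_sphere_norm_le (c := w) (R := 1) (f := F)
    (C := M * Real.exp (2 * B + 1) * Real.exp ((2 * B + 1) * w.re ^ 2)) one_pos H.diff.diffContOnCl (by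
      intro z hz
      have hzw : ‖z - w‖ = 1 := by simpa using hz
      have h2 : |z.im - w.im| ≤ 1 := by
        have := Complex.abs_im_le_norm (z - w); rwa [hzw, Complex.sub_im] at this
      have h3 : |z.re - w.re| ≤ 1 := by
        have := Complex.abs_re_le_norm (z - w); rwa [hzw, Complex.sub_re] at this
      have h4 : |z.im| ≤ R + 1 := by
        have : |z.im| ≤ |z.im - w.im| + |w.im| := by
          have := abs_add_le (z.im - w.im) w.im; simpa using this
        linarith
      refine (hM z h4).trans ?_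
      rw [mul_assoc, ← Real.exp_add]
      refine mul_le_mul_of_nonneg_left (Real.exp_le_exp.2 ?_) hM0.le
      have h5 : (z.re - w.re) ^ 2 ≤ 1 := by
        have := abs_le.1 h3; nlinarith
      have h6 : z.re ^ 2 ≤ 2 * w.re ^ 2 + 2 := by nlinarith [sq_nonneg (z.re - 2 * w.re)]
      nlinarith [mul_le_mul_of_nonneg_left h6 (by linarith : 0 ≤ B + 1 / 2)])
  simpa using h1

/-- differentiation under the integral sign -/
theorem hasDeriv_int (H : Data F a η B) {t : ℝ} (ht : 0 < t) (htB : 16 * (2 * B + 1 + 1) * t ≤ 1)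
    (S : Set ℝ) (w : ℂ) :
    HasDerivAt (fun w => ∫ v in S, (gw t v : ℂ) * F (w + v)) (∫ v in S, (gw t v : ℂ) * deriv F (w + v)) w := by
  have hB := H.hB
  set R : ℝ := |w.im| + 1 with hRdef
  set y0 : ℝ := |w.re| + 1 with hy0
  obtain ⟨M, hM0, hM⟩ := H.growd (R := R) (by positivity)
  obtain ⟨M', hM0', hM'⟩ := H.grow (R := R) (by positivity)
  have hdc : Continuous (deriv F) := by
    have : Differentiable ℂ (deriv F) := fun z => ((H.diff.analyticAt z).deriv).differentiableAt
    exact this.continuous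
  have hgb : ∀ v : ℝ, gw t v ≤ Real.exp (-(4 * (2 * B + 1 + 1)) * v ^ 2) := by
    intro v
    unfold gw
    apply Real.exp_le_exp.2
    rw [div_le_iff₀ (by positivity)]
    nlinarith [sq_nonneg v, mul_le_mul_of_nonneg_right htB (sq_nonneg v)]
  have hF : Integrable (fun v : ℝ => (gw t v : ℂ) * F (w + v)) := by
    have h1 := integ (f := fun σ : ℝ => F (σ + w.im * I)) (B := 2 * B + 1) (M := M') (C := 1) (t := t)
      (q := fun _ => 1) (by linarith) ht htB (H.diff.continuous.comp (by fun_prop)) (by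
        intro σ
        have h2 := hM' (σ + w.im * I) (by simp [hRdef])
        refine h2.trans (mul_le_mul_of_nonneg_left (Real.exp_le_exp.2 ?_) hM0'.le)
        simp
        nlinarith [sq_nonneg σ]) w.re continuous_const (fun v => by
          simp only [norm_one, one_mul]; nlinarith [sq_nonneg v])
    refine h1.congr (Eventually.of_forall fun v => ?_)
    simp only [one_mul]
    congr 2
    conv_rhs => rw [← Complex.re_add_im w]
    push_cast; ring
  refine (hasDerivAt_integral_of_dominated_loc_of_deriv_le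
    (μ := volume.restrict S) (F := fun w (v : ℝ) => (gw t v : ℂ) * F (w + v))
    (F' := fun w (v : ℝ) => (gw t v : ℂ) * deriv F (w + v)) (x₀ := w)
    (s := Metric.ball w 1)
    (bound := fun v => M * Real.exp (2 * (2 * B + 1) * y0 ^ 2) * Real.exp (-1 * v ^ 2))
    (Metric.ball_mem_nhds w one_pos) ?_ ?_ ?_ ?_ ?_ ?_).2
  · refine Eventually.of_forall fun z => ?_
    have : Continuous (fun v : ℝ => (gw t v : ℂ) * F (z + v)) := by
      have := H.diff.continuous
      fun_prop
    exact this.aestronglyMeasurable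
  · exact hF.integrableOn
  · have : Continuous (fun v : ℝ => (gw t v : ℂ) * deriv F (w + v)) := by fun_prop
    exact this.aestronglyMeasurable
  · refine Eventually.of_forall fun v z hz => ?_
    have hzw : ‖z - w‖ ≤ 1 := by
      have := Metric.mem_ball.1 hz; rw [dist_eq_norm] at this; exact this.le
    have h2 : |z.im - w.im| ≤ 1 := by
      have := (Complex.abs_im_le_norm (z - w)).trans hzw; rwa [Complex.sub_im] at this
    have h3 : |z.re - w.re| ≤ 1 := by
      have := (Complex.abs_re_le_norm (z - w)).trans hzw; rwa [Complex.sub_re] at this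
    have h4 : |(z + (v : ℂ)).im| ≤ R := by
      have : |z.im| ≤ |z.im - w.im| + |w.im| := by
        have := abs_add_le (z.im - w.im) w.im; simpa using this
      simp only [Complex.add_im, Complex.ofReal_im, add_zero]
      linarith
    have h5 : |z.re| ≤ y0 := by
      have : |z.re| ≤ |z.re - w.re| + |w.re| := by
        have := abs_add_le (z.re - w.re) w.re; simpa using this
      linarith
    rw [norm_mul, Complex.norm_real, Real.norm_of_nonneg (gw_pos t v).le]
    have h6 := hM (z + v) h4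
    have h7 : (z + (v : ℂ)).re ^ 2 ≤ 2 * y0 ^ 2 + 2 * v ^ 2 := by
      simp only [Complex.add_re, Complex.ofReal_re]
      have : z.re ^ 2 ≤ y0 ^ 2 := by
        rw [← sq_abs z.re]; exact pow_le_pow_left₀ (abs_nonneg _) h5 2
      nlinarith [sq_nonneg (z.re - v)]
    have h8 : Real.exp ((2 * B + 1) * (z + (v : ℂ)).re ^ 2) ≤
        Real.exp (2 * (2 * B + 1) * y0 ^ 2) * Real.exp (2 * (2 * B + 1) * v ^ 2) := by
      rw [← Real.exp_add]
      apply Real.exp_le_exp.2
      nlinarith [mul_le_mul_of_nonneg_left h7 (by linarith : 0 ≤ 2 * B + 1)]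
    calc gw t v * ‖deriv F (z + v)‖ ≤ Real.exp (-(4 * (2 * B + 1 + 1)) * v ^ 2) *
        (M * (Real.exp (2 * (2 * B + 1) * y0 ^ 2) * Real.exp (2 * (2 * B + 1) * v ^ 2))) :=
          mul_le_mul (hgb v) (h6.trans (mul_le_mul_of_nonneg_left h8 hM0.le)) (norm_nonneg _)
            (Real.exp_pos _).le
      _ = M * Real.exp (2 * (2 * B + 1) * y0 ^ 2) * (Real.exp (-(4 * (2 * B + 1 + 1)) * v ^ 2) *
          Real.exp (2 * (2 * B + 1) * v ^ 2)) := by ring
      _ ≤ _ := by
          refine mul_le_mul_of_nonneg_left ?_ (by positivity)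
          rw [← Real.exp_add]
          apply Real.exp_le_exp.2
          nlinarith [sq_nonneg v, mul_nonneg (by linarith : 0 ≤ B - 1) (sq_nonneg v)]
  · exact ((integrable_exp_neg_mul_sq (by norm_num)).const_mul _).integrableOn
  · refine Eventually.of_forall fun v z _ => ?_
    have h1 := ((H.diff (z + v)).hasDerivAt).comp_add_const z (v : ℂ)
    exact h1.const_mul _

end Data

end Pool.Agent.KS6_29.HS
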