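import Mathlib
import Pool.Graph.R_seed8.W388.TW.Parts
import Pool.Graph.R_seed8.W605.LVDirU

/-!
# The logarithmic derivative of the L-function of a newform to the right of the critical strip
-/

set_option autoImplicit false

namespace Pool.Agent.KS6_29.HS

open ArithmeticFunction W388 Complex

/-- the power sums of the Satake parameters are at most `2` -/
theorem cS_le {N : ℕ} {lam : ℕ → ℝ} (H : HeckeSeq N lam)
    (hg : ∀ p : ℕ, p.Prime → ¬ p ∣ N → |lam p| ≤ 2) (hb : ∀ p : ℕ, p.Prime → p ∣ N → |lam p| ≤ 1)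
    {p : ℕ} (hp : p.Prime) (j : ℕ) : |cS N lam (p ^ (j + 1))| ≤ 2 := by
  unfold cS
  rw [hp.pow_minFac (by omega)]
  by_cases hN : p ∣ N
  · simp only [hN, not_true_eq_false, and_false, if_false, sub_zero]
    have h1 : ∀ j : ℕ, lam (p ^ (j + 1)) = lam p ^ (j + 1) := by
      intro j
      induction j with
      | zero => simp
      | succ j ih =>
        rw [H.pow p j hp, if_pos hN, sub_zero, ih]
        ring
    rw [h1, abs_pow]
    have := pow_le_one₀ (abs_nonneg (lam p)) (hb p hp hN) (n := j + 1)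
    linarith
  · have h2 := hg p hp hN
    set θ : ℝ := Real.arccos (lam p / 2) with hθ
    have hcos : lam p = 2 * Real.cos θ := by
      obtain ⟨a1, a2⟩ := abs_le.1 h2
      rw [hθ, Real.cos_arccos (by linarith) (by linarith)]; ring
    have hpow : ∀ j : ℕ, lam (p ^ (j + 2)) = lam p * lam (p ^ (j + 1)) - lam (p ^ j) := by
      intro j; rw [H.pow p j hp, if_neg hN]
    have hrec : ∀ x : ℝ, 2 * Real.cos θ * (2 * Real.cos (x + θ)) - 2 * Real.cos x =
        2 * Real.cos (x + 2 * θ) := by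
      intro x
      have e : x = (x + θ) - θ := by ring
      have e2 : x + 2 * θ = (x + θ) + θ := by ring
      conv_lhs => rw [show Real.cos x = Real.cos ((x + θ) - θ) by ring_nf]
      rw [e2, Real.cos_sub, Real.cos_add (x + θ) θ]
      ring
    have key : ∀ j : ℕ, lam (p ^ (j + 1)) - (if j = 0 then 0 else lam (p ^ (j - 1))) =
        2 * Real.cos ((j + 1) * θ) := by
      intro j
      induction j using Nat.strong_induction_on with
      | _ j ih =>
        match j, ih with
        | 0, _ => simp [hcos]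
        | 1, _ =>
          have h3 := hpow 0
          simp only [zero_add, pow_one, pow_zero, H.one] at h3
          simp only [one_ne_zero, if_false, Nat.sub_self, pow_zero, H.one, Nat.cast_one]
          rw [show (1 + 1 : ℕ) = 2 by norm_num, h3, hcos]
          have := hrec 0
          rw [zero_add, zero_add, Real.cos_zero] at this
          rw [show ((1 : ℝ) + 1) * θ = 2 * θ by ring]
          linarith
        | 2, _ =>
          have h3 := hpow 0
          have h4 := hpow 1
          simp only [zero_add, pow_one, pow_zero, H.one] at h3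
          norm_num at h4 ⊢
          rw [h4, h3, hcos]
          have r0 := hrec 0
          have r1 := hrec θ
          rw [zero_add, zero_add, Real.cos_zero] at r0
          rw [show θ + θ = 2 * θ by ring, show θ + 2 * θ = 3 * θ by ring] at r1
          linear_combination r1 + 2 * Real.cos θ * r0
        | j + 3, ih =>
          have i1 := ih (j + 1) (by omega)
          have i2 := ih (j + 2) (by omega)
          simp only [Nat.add_eq_zero_iff, one_ne_zero, and_false, if_false, OfNat.ofNat_ne_zero] at i1 i2 ⊢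
          have e1 : j + 1 - 1 = j := by omega
          have e2 : j + 2 - 1 = j + 1 := by omega
          have e3 : j + 3 - 1 = j + 2 := by omega
          rw [e1] at i1
          rw [e2] at i2
          rw [e3]
          have h3 := hpow (j + 2)
          have h4 := hpow j
          have e5 : j + 3 + 1 = j + 2 + 2 := by omega
          have e6 : j + 2 + 1 = j + 3 := by omega
          have e7 : j + 1 + 1 = j + 2 := by omega
          rw [e6] at h3 i2
          rw [e7] at i1
          rw [e5]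
          have r := hrec ((j + 2) * θ)
          rw [show ((j : ℝ) + 2) * θ + θ = (j + 3) * θ by ring,
            show ((j : ℝ) + 2) * θ + 2 * θ = (j + 4) * θ by ring] at r
          push_cast at i1 i2 ⊢
          rw [show ((j : ℝ) + 1 + 1) * θ = (j + 2) * θ by ring] at i1
          rw [show ((j : ℝ) + 2 + 1) * θ = (j + 3) * θ by ring] at i2
          rw [show ((j : ℝ) + 3 + 1) * θ = (j + 4) * θ by ring]
          linear_combination h3 - h4 + lam p * i2 - i1 + (2 * Real.cos ((j + 3) * θ)) * hcos + r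
    have h3 := key j
    rcases Nat.eq_zero_or_pos j with rfl | hj
    · have h4 : ¬ (p ^ 2 ∣ p ^ (0 + 1)) := by
        intro h
        have := (Nat.pow_dvd_pow_iff_le_right hp.one_lt).1 h
        omega
      rw [if_neg (fun h => h4 h.1), sub_zero, zero_add, pow_one]
      exact h2
    · have h4 : p ^ 2 ∣ p ^ (j + 1) := pow_dvd_pow p (by omega)
      have h5 : p ^ (j + 1) / p ^ 2 = p ^ (j - 1) := by
        rw [Nat.pow_div (by omega) hp.pos]
        congr 1
      simp only [h4, hN, not_false_eq_true, and_self, if_true, h5]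
      rw [if_neg (by omega)] at h3
      rw [h3, abs_mul, abs_two]
      have := Real.abs_cos_le_one ((j + 1) * θ)
      linarith

theorem vM_cS_le {N : ℕ} {lam : ℕ → ℝ} (H : HeckeSeq N lam)
    (hg : ∀ p : ℕ, p.Prime → ¬ p ∣ N → |lam p| ≤ 2) (hb : ∀ p : ℕ, p.Prime → p ∣ N → |lam p| ≤ 1)
    (n : ℕ) : vonMangoldt n * |cS N lam n| ≤ 2 * vonMangoldt n * (n : ℝ) ^ (0 : ℝ) := by
  rw [Real.rpow_zero, mul_one]
  by_cases h : IsPrimePow n
  · obtain ⟨p, j, hp, hj, rfl⟩ := h
    obtain ⟨i, rfl⟩ : ∃ i, j = i + 1 := ⟨j - 1, by omega⟩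
    have h1 := cS_le H hg hb hp.nat_prime i
    have h2 : 0 ≤ vonMangoldt (p ^ (i + 1)) := vonMangoldt_nonneg
    nlinarith
  · rw [vonMangoldt_apply, if_neg h]; simp

theorem vM_cS_le' {N : ℕ} {lam : ℕ → ℝ} (H : HeckeSeq N lam) (HR : RSLim lam) (n : ℕ) :
    vonMangoldt n * |cS N lam n| ≤ 2 * vonMangoldt n * (n : ℝ) ^ (1 / 2 : ℝ) := by
  have := Pool.Agent.W605.LVDirU.vM_bound H HR.1 n
  rwa [Real.sqrt_eq_rpow] at this

/-- the bound for the logarithmic derivative -/
noncomputable def KL (η : ℝ) : ℝ := 2 * ∑' n : ℕ, vonMangoldt n * (n : ℝ) ^ (-(1 + η))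

theorem vM_summable {x : ℝ} (hx : 1 < x) : Summable fun n : ℕ => vonMangoldt n * (n : ℝ) ^ (-x) := by
  have h1 := LSeriesSummable_vonMangoldt (s := (x : ℂ)) (by simpa using hx)
  have h2 := h1.norm
  refine h2.congr fun n => ?_
  rw [LSeries.norm_term_eq]
  rcases Nat.eq_zero_or_pos n with rfl | hn
  · simp
  · rw [if_neg hn.ne', Complex.norm_real, Real.norm_of_nonneg vonMangoldt_nonneg, Complex.ofReal_re,
      Real.rpow_neg (Nat.cast_nonneg n)]
    rfl

theorem KL_nonneg (η : ℝ) : 0 ≤ KL η := by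
  unfold KL
  exact mul_nonneg (by norm_num) (tsum_nonneg fun n => mul_nonneg vonMangoldt_nonneg (by positivity))

/-- **The logarithmic derivative.** -/
theorem logd_le {N : ℕ} (hN : 0 < N) {lam : ℕ → ℝ} (H : HeckeSeq N lam) (HR : RSLim lam) {κ : ℝ}
    (hκ : 0 ≤ κ)
    (hc : ∀ n : ℕ, vonMangoldt n * |cS N lam n| ≤ 2 * vonMangoldt n * (n : ℝ) ^ κ)
    {q : ℕ} [NeZero q] (χ : DirichletCharacter ℂ q) {F : ℂ → ℂ}
    (hF : ∀ s : ℂ, 1 < s.re → F s = ∑' n : ℕ, χ (n : ZMod q) * (lam n : ℂ) * (n : ℂ) ^ (-s))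
    {η : ℝ} (hη : 0 < η) {s : ℂ} (hs : 1 + κ + η ≤ s.re) : F s ≠ 0 ∧ ‖deriv F s / F s‖ ≤ KL η := by
  obtain ⟨A, hA, h1, h2, h3⟩ := p_dir N hN lam H HR
  obtain ⟨g1, g2, g3, g4, g5, g6⟩ := h3 q χ F hF
  have hs1 : 1 < s.re := by linarith
  refine ⟨g2 s hs1, ?_⟩
  rw [g3 s hs1, norm_neg]
  have hsum := (vM_summable (x := 1 + η) (by linarith)).mul_left 2
  have hb : ∀ n : ℕ, ‖χ (n : ZMod q) * (cS N lam n : ℂ) * (vonMangoldt n : ℂ) * (n : ℂ) ^ (-s)‖ ≤
      2 * (vonMangoldt n * (n : ℝ) ^ (-(1 + η))) := by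
    intro n
    rcases Nat.eq_zero_or_pos n with rfl | hn
    · simp
    have hn0 : (0 : ℝ) < n := by exact_mod_cast hn
    have hn1 : (1 : ℝ) ≤ n := by exact_mod_cast hn
    rw [norm_mul, norm_mul, norm_mul, Complex.norm_real, Complex.norm_real, Real.norm_eq_abs,
      Real.norm_of_nonneg vonMangoldt_nonneg, Complex.norm_natCast_cpow_of_pos hn]
    have e1 : (n : ℝ) ^ (-s).re ≤ (n : ℝ) ^ (-(1 + η)) * (n : ℝ) ^ (-κ) := by
      rw [← Real.rpow_add hn0]
      apply Real.rpow_le_rpow_of_exponent_le hn1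
      simp; linarith
    have e2 : ‖χ (n : ZMod q)‖ ≤ 1 := χ.norm_le_one _
    have e3 := hc n
    have e4 : (0 : ℝ) ≤ vonMangoldt n * |cS N lam n| := mul_nonneg vonMangoldt_nonneg (abs_nonneg _)
    have e5 : (n : ℝ) ^ κ * (n : ℝ) ^ (-κ) = 1 := by
      rw [← Real.rpow_add hn0]; simp
    calc ‖χ (n : ZMod q)‖ * |cS N lam n| * vonMangoldt n * (n : ℝ) ^ (-s).re
        = ‖χ (n : ZMod q)‖ * (vonMangoldt n * |cS N lam n|) * (n : ℝ) ^ (-s).re := by ring
      _ ≤ 1 * (2 * vonMangoldt n * (n : ℝ) ^ κ) * ((n : ℝ) ^ (-(1 + η)) * (n : ℝ) ^ (-κ)) := by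
          gcongr
      _ = 2 * (vonMangoldt n * (n : ℝ) ^ (-(1 + η))) * ((n : ℝ) ^ κ * (n : ℝ) ^ (-κ)) := by ring
      _ = _ := by rw [e5, mul_one]
  have := tsum_of_norm_bounded hsum.hasSum hb
  rw [tsum_mul_left] at this
  exact this

end Pool.Agent.KS6_29.HS
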