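import Mathlib
import Pool.Agent.KS6_29.HS.Data3

/-!
# Reality and simplicity of the zeros after the time `K / log (conductor)`
-/

set_option autoImplicit false

namespace Pool.Agent.KS6_29.HS

open MeasureTheory Set Filter Topology Complex

open scoped ComplexConjugate

namespace Data

variable {F : ℂ → ℂ} {a η B : ℝ}

theorem line_deriv (H : Data F a η B) (x σ : ℝ) :
    HasDerivAt (fun σ : ℝ => F (σ + x * I)) (deriv F (σ + x * I)) σ := by
  have h1 := (H.diff (σ + x * I)).hasDerivAt
  have h2 : HasDerivAt (fun σ : ℝ => (σ : ℂ) + x * I) 1 σ := by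
    simpa using (Complex.ofRealCLM.hasDerivAt (x := σ)).add_const (x * I)
  have := h1.comp σ h2
  rw [mul_one] at this
  exact this

theorem toLine (H : Data F a η B) (x : ℝ) (hx : B ≤ ell F a x) :
    Line (fun σ : ℝ => F (σ + x * I)) (fun σ : ℝ => logDeriv F (σ + x * I)) a η (2 * B + 1)
      (ell F a x - B) (Real.exp (14 * a ^ 2 * B + 4 * a * B)) := by
  have ha := H.ha
  have ha0 : 0 < a := by linarith
  have hB := H.hB
  have hd : deriv (fun σ : ℝ => F (σ + x * I)) = fun σ : ℝ => deriv F (σ + x * I) := by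
    ext σ; exact (H.line_deriv x σ).deriv
  have hdF : Differentiable ℂ (deriv F) := fun z => ((H.diff.analyticAt z).deriv).differentiableAt
  refine ⟨ha, H.hη, H.hη4, by linarith, ?_, by linarith, ?_, ?_, ?_, ?_, ?_, ?_, ?_, ?_, ?_, ?_, ?_, ?_⟩
  · exact Real.one_le_exp (by positivity)
  · intro σ
    have h1 := H.even (σ - x * I)
    have e1 : -((σ : ℂ) - x * I) = ((-σ : ℝ) : ℂ) + x * I := by push_cast; ring
    have e2 : conj ((σ : ℂ) - x * I) = (σ : ℂ) + x * I := by
      rw [map_sub, map_mul, Complex.conj_ofReal, Complex.conj_ofReal, Complex.conj_I]; ring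
    rw [e1, e2] at h1
    exact h1
  · exact fun σ => (H.line_deriv x σ).differentiableAt
  · rw [hd]; exact hdF.continuous.comp (by fun_prop)
  · intro σ hσ
    exact H.ne _ (by simpa using hσ)
  · intro σ hσ
    have h1 := H.line_deriv x σ
    have h2 : logDeriv F (σ + x * I) * F (σ + x * I) = deriv F (σ + x * I) := by
      rw [logDeriv_apply, div_mul_cancel₀ _ (H.ne _ (by simpa using hσ))]
    rw [h2]; exact h1
  · intro σ hσ
    have h1 := H.logDeriv_diff (w := σ + x * I) (by simpa using hσ)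
    have h2 : HasDerivAt (fun σ : ℝ => (σ : ℂ) + x * I) 1 σ := by
      simpa using (Complex.ofRealCLM.hasDerivAt (x := σ)).add_const (x * I)
    exact (h1.hasDerivAt.comp σ h2).differentiableAt
  · intro σ hσ
    have h1 := H.logDeriv_diff (w := σ + x * I) (by simpa using hσ)
    have h2 : HasDerivAt (fun σ : ℝ => (σ : ℂ) + x * I) 1 σ := by
      simpa using (Complex.ofRealCLM.hasDerivAt (x := σ)).add_const (x * I)
    have h3 : deriv (fun σ : ℝ => logDeriv F (σ + x * I)) σ = deriv (logDeriv F) (σ + x * I) := by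
      have := (h1.hasDerivAt.comp σ h2).deriv
      rw [mul_one] at this
      exact this
    rw [h3]
    have := H.der (σ + x * I) (by simpa using hσ)
    linarith
  · intro σ hσ
    have := H.im (σ + x * I) (by simpa using hσ)
    linarith
  · intro σ hσ
    exact H.re_ge x hσ
  · intro σ hσ
    exact H.mid x hσ
  · obtain ⟨M, hM0, hM⟩ := H.grow (R := |x|) (abs_nonneg x)
    refine ⟨M, fun σ => (hM _ (by simp)).trans (mul_le_mul_of_nonneg_left (Real.exp_le_exp.2 ?_) hM0.le)⟩
    simp
    nlinarith [sq_nonneg σ]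
  · obtain ⟨M, hM0, hM⟩ := H.growd (R := |x|) (abs_nonneg x)
    refine ⟨M, fun σ => ?_⟩
    rw [hd]
    refine (hM _ (by simp)).trans (mul_le_mul_of_nonneg_left (Real.exp_le_exp.2 ?_) hM0.le)
    simp

/-- integrability on horizontal lines -/
theorem int_flow (H : Data F a η B) {t : ℝ} (ht : 0 < t) (htB : 16 * (2 * B + 1 + 1) * t ≤ 1) (w : ℂ) :
    Integrable (fun v : ℝ => (gw t v : ℂ) * F (w + v)) := by
  have hB := H.hB
  obtain ⟨M', hM0', hM'⟩ := H.grow (R := |w.im|) (by positivity)
  have h1 := integ (f := fun σ : ℝ => F (σ + w.im * I)) (B := 2 * B + 1) (M := M') (C := 1) (t := t)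
    (q := fun _ => 1) (by linarith) ht htB (H.diff.continuous.comp (by fun_prop)) (by
      intro σ
      have h2 := hM' (σ + w.im * I) (by simp)
      refine h2.trans (mul_le_mul_of_nonneg_left (Real.exp_le_exp.2 ?_) hM0'.le)
      simp
      nlinarith [sq_nonneg σ]) w.re continuous_const (fun v => by
        simp only [norm_one, one_mul]; nlinarith [sq_nonneg v])
  refine h1.congr (Eventually.of_forall fun v => ?_)
  simp only [one_mul]
  congr 2
  conv_rhs => rw [← Complex.re_add_im w]
  push_cast; ring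

/-- the decomposition of the flow -/
theorem flow_eq (H : Data F a η B) {t : ℝ} (ht : 0 < t) (htB : 16 * (2 * B + 1 + 1) * t ≤ 1)
    {ε : ℂ} (hε : ∀ w, F (-w) = ε * conj (F (conj w))) (w : ℂ) :
    flow F t w = half F t w + ε * conj (half F t (-(conj w))) := by
  have hI := H.int_flow ht htB w
  unfold flow half
  have h1 : (∫ v : ℝ, (gw t v : ℂ) * F (w + v)) =
      (∫ v in Iic (0 : ℝ), (gw t v : ℂ) * F (w + v)) + ∫ v in Ioi (0 : ℝ), (gw t v : ℂ) * F (w + v) :=
    (intervalIntegral.integral_Iic_add_Ioi hI.integrableOn hI.integrableOn).symm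
  rw [h1, add_comm]
  congr 1
  have h2 : (∫ v in Iic (0 : ℝ), (gw t v : ℂ) * F (w + v)) =
      ∫ v in Ioi (0 : ℝ), (gw t v : ℂ) * F (w - v) := by
    have := integral_comp_neg_Ioi (0 : ℝ) (fun v : ℝ => (gw t v : ℂ) * F (w + v))
    rw [neg_zero] at this
    rw [← this]
    refine setIntegral_congr_fun measurableSet_Ioi fun v _ => ?_
    have e : gw t (-v) = gw t v := by unfold gw; rw [neg_sq]
    rw [e]
    push_cast
    rw [← sub_eq_add_neg]
  rw [h2, ← integral_conj, ← integral_const_mul]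
  refine setIntegral_congr_fun measurableSet_Ioi fun v _ => ?_
  rw [map_mul, Complex.conj_ofReal]
  have h3 := hε ((v : ℂ) - w)
  have e1 : -((v : ℂ) - w) = w - v := by ring
  have e2 : conj ((v : ℂ) - w) = -(conj w) + v := by
    rw [map_sub, Complex.conj_ofReal]; ring
  rw [e1, e2] at h3
  rw [h3]; ring

/-- The largest admissible time. -/
noncomputable def T1 (a η B : ℝ) : ℝ :=
  η ^ 2 / (10000000 * (a + 2) ^ 2 * (2 * B + 1) ^ 2 * Real.exp (14 * a ^ 2 * B + 4 * a * B))

theorem T1_pos (H : Data F a η B) : 0 < T1 a η B := by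
  have ha := H.ha
  have hη := H.hη
  have hB := H.hB
  unfold T1
  positivity

theorem T1_cond (H : Data F a η B) {t : ℝ} (ht : 0 < t) (ht1 : t ≤ T1 a η B) {E : ℝ}
    (hE : a + 3 * η ≤ t * E) : B ≤ E ∧
    Cond a η (2 * B + 1) (E - B) (Real.exp (14 * a ^ 2 * B + 4 * a * B)) t := by
  have ha := H.ha
  have hη := H.hη
  have hη4 := H.hη4
  have hB := H.hB
  have ha0 : 0 < a := by linarith
  set N : ℝ := Real.exp (14 * a ^ 2 * B + 4 * a * B) with hN
  have hN1 : 1 ≤ N := Real.one_le_exp (by positivity)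
  have hD : 0 < 10000000 * (a + 2) ^ 2 * (2 * B + 1) ^ 2 * N := by positivity
  have k0 : t * (10000000 * (a + 2) ^ 2 * (2 * B + 1) ^ 2 * N) ≤ η ^ 2 := by
    unfold T1 at ht1
    rwa [le_div_iff₀ hD] at ht1
  have p1 : 1 ≤ (a + 2) ^ 2 := by nlinarith
  have p2 : 1 ≤ (2 * B + 1) ^ 2 := by nlinarith
  have k1 : t * (10000000 * (2 * B + 1) ^ 2) ≤ η ^ 2 := by
    refine le_trans ?_ k0
    refine mul_le_mul_of_nonneg_left ?_ ht.le
    have h1 : (1 : ℝ) ≤ (a + 2) ^ 2 * N := by nlinarith
    have h2 : 0 ≤ 10000000 * (2 * B + 1) ^ 2 := by positivity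
    nlinarith [mul_le_mul_of_nonneg_left h1 h2]
  have k2 : t * (10000000 * ((a + 1) ^ 2 + 1) * N) ≤ η ^ 2 := by
    refine le_trans ?_ k0
    refine mul_le_mul_of_nonneg_left ?_ ht.le
    have h1 : (a + 1) ^ 2 + 1 ≤ (a + 2) ^ 2 * (2 * B + 1) ^ 2 := by
      have : (a + 1) ^ 2 + 1 ≤ (a + 2) ^ 2 := by nlinarith
      nlinarith [mul_le_mul_of_nonneg_left p2 (by positivity : 0 ≤ (a + 2) ^ 2)]
    have h2 : 0 ≤ 10000000 * N := by positivity
    nlinarith [mul_le_mul_of_nonneg_left h1 h2]
  have hη2 : η ^ 2 ≤ η := by nlinarith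
  have k3 : t * (10000000 * (2 * B + 1)) ≤ η ^ 2 := by
    refine le_trans ?_ k1
    refine mul_le_mul_of_nonneg_left ?_ ht.le
    nlinarith
  have htB : t * B ≤ η := by nlinarith
  have ht1' : t ≤ 1 := by nlinarith
  have hE0 : 1 / 2 ≤ t * E := by linarith
  have hEpos : 0 < E := by
    by_contra h
    push Not at h
    nlinarith
  have hBE : B ≤ E := by
    by_contra h
    push Not at h
    have : t * E ≤ t * B := mul_le_mul_of_nonneg_left h.le ht.le
    nlinarith
  have hK : a + 2 * η ≤ t * (E - B) := by rw [mul_sub]; linarith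
  refine ⟨hBE, ht, by nlinarith, by nlinarith, by nlinarith, hK, ?_⟩
  have hlam : 1 / (2 * t) ≤ E - B := by
    rw [div_le_iff₀ (by positivity)]
    nlinarith
  set z : ℝ := η / (2 * t) with hz
  have hz0 : 0 < z := by positivity
  have h1 : z ≤ η * (E - B) := by
    have := mul_le_mul_of_nonneg_left hlam hη.le
    rw [hz]
    calc η / (2 * t) = η * (1 / (2 * t)) := by ring
      _ ≤ _ := this
  have h2 : z ^ 2 / 4 ≤ Real.exp (η * (E - B) - 1 / 4) := by
    have h3 : z ^ 2 / 2 ≤ Real.exp z := by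
      have := Real.quadratic_le_exp_of_nonneg hz0.le
      nlinarith
    have h4 : Real.exp z ≤ Real.exp (η * (E - B)) := Real.exp_le_exp.2 h1
    have h5 : (1 / 2 : ℝ) ≤ Real.exp (-(1 / 4)) := by
      have := Real.add_one_le_exp (-(1 / 4) : ℝ)
      linarith
    have e : Real.exp (η * (E - B) - 1 / 4) = Real.exp (η * (E - B)) * Real.exp (-(1 / 4)) := by
      rw [← Real.exp_add]; congr 1
    rw [e]
    have h6 : 0 ≤ z ^ 2 / 2 := by positivity
    calc z ^ 2 / 4 = z ^ 2 / 2 * (1 / 2) := by ring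
      _ ≤ _ := mul_le_mul (h3.trans h4) h5 (by norm_num) (Real.exp_pos _).le
  have h3 : t ≤ Real.sqrt t := by
    apply Real.le_sqrt_of_sq_le
    nlinarith
  have h4 : t * (z ^ 2 / 4) ≤ Real.sqrt t * Real.exp (η * (E - B) - 1 / 4) :=
    mul_le_mul h3 h2 (by positivity) (Real.sqrt_nonneg t)
  refine le_trans ?_ h4
  have e : t * (z ^ 2 / 4) = η ^ 2 / (16 * t) := by
    rw [hz]; field_simp; ring
  rw [e, le_div_iff₀ (by positivity)]
  nlinarith

/-- **Reality and simplicity of the zeros.** -/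
theorem zeros (H : Data F a η B) {t : ℝ} (ht : 0 < t) (ht1 : t ≤ T1 a η B)
    {w : ℂ} (hw : a + 3 * η ≤ t * ell F a w.im) (h0 : flow F t w = 0) :
    w.re = 0 ∧ deriv (flow F t) w ≠ 0 := by
  have ha := H.ha
  have hB := H.hB
  have hη := H.hη
  set x : ℝ := w.im with hx
  set y : ℝ := w.re with hy
  have hwe : w = (y : ℂ) + x * I := (Complex.re_add_im w).symm
  obtain ⟨hBell, hcond⟩ := H.T1_cond ht ht1 hw
  have htB : 16 * (2 * B + 1 + 1) * t ≤ 1 := hcond.htB
  have L := H.toLine x hBell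
  obtain ⟨ε, hε1, hε⟩ := H.sym
  -- the half integral on the line
  have hhalf : ∀ s : ℝ, half F t ((s : ℂ) + x * I) = ∫ v in Ioi (0 : ℝ), (gw t v : ℂ) *
      (fun σ : ℝ => F (σ + x * I)) (s + v) := by
    intro s
    unfold half
    refine setIntegral_congr_fun measurableSet_Ioi fun v _ => ?_
    simp only
    congr 2
    push_cast; ring
  have hconjx : ∀ s : ℝ, -(conj ((s : ℂ) + x * I)) = ((-s : ℝ) : ℂ) + x * I := by
    intro s
    rw [map_add, map_mul, Complex.conj_ofReal, Complex.conj_ofReal, Complex.conj_I]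
    push_cast; ring
  have hdec : ∀ s : ℝ, flow F t ((s : ℂ) + x * I) = half F t ((s : ℂ) + x * I) +
      ε * conj (half F t (((-s : ℝ) : ℂ) + x * I)) := by
    intro s
    rw [H.flow_eq ht htB hε, hconjx]
  have hhalfd : ∀ s : ℝ, HasDerivAt (fun s : ℝ => half F t ((s : ℂ) + x * I))
      (∫ v in Ioi (0 : ℝ), (gw t v : ℂ) * deriv (fun σ : ℝ => F (σ + x * I)) (s + v)) s := by
    intro s
    have h1 := H.hasDeriv_int ht htB (Ioi 0) ((s : ℂ) + x * I)
    have h2 : HasDerivAt (fun σ : ℝ => (σ : ℂ) + x * I) 1 s := by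
      simpa using (Complex.ofRealCLM.hasDerivAt (x := s)).add_const (x * I)
    have h3 := h1.comp s h2
    rw [mul_one] at h3
    have e : (∫ v in Ioi (0 : ℝ), (gw t v : ℂ) * deriv F ((s : ℂ) + x * I + v)) =
        ∫ v in Ioi (0 : ℝ), (gw t v : ℂ) * deriv (fun σ : ℝ => F (σ + x * I)) (s + v) := by
      refine setIntegral_congr_fun measurableSet_Ioi fun v _ => ?_
      rw [(H.line_deriv x (s + v)).deriv]
      congr 2
      push_cast; ring
    rw [← e]; exact h3
  -- strict inequality off the axis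
  have hstrict : ∀ s : ℝ, 0 < s → ‖half F t (((-s : ℝ) : ℂ) + x * I)‖ < ‖half F t ((s : ℂ) + x * I)‖ := by
    intro s hs
    rcases le_total η s with h1 | h1
    · have := L.c2 hcond h1
      rw [hhalf, hhalf]
      exact this
    · set Ψ : ℝ → ℝ := fun s => ‖half F t ((s : ℂ) + x * I)‖ ^ 2 with hΨ
      have hΨd : ∀ u ∈ Icc (-s) s, HasDerivAt Ψ (2 * ((∫ v in Ioi (0 : ℝ), (gw t v : ℂ) *
          deriv (fun σ : ℝ => F (σ + x * I)) (u + v)) * conj (half F t ((u : ℂ) + x * I))).re) u := by
        intro u _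
        have h2 := (hhalfd u).norm_sq
        convert h2 using 1
        rw [Complex.inner]
      have hmono : StrictMonoOn Ψ (Icc (-s) s) := by
        apply strictMonoOn_of_deriv_pos (convex_Icc _ _)
        · intro u hu; exact (hΨd u hu).continuousAt.continuousWithinAt
        · intro u hu
          rw [interior_Icc] at hu
          rw [(hΨd u ⟨hu.1.le, hu.2.le⟩).deriv]
          have h3 := L.c1 (y := u) hcond (abs_le.2 ⟨by linarith [hu.1], by linarith [hu.2]⟩)
          rw [hhalf]
          linarith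
      have h2 := hmono (left_mem_Icc.2 (by linarith)) (right_mem_Icc.2 (by linarith)) (by linarith)
      exact lt_of_pow_lt_pow_left₀ 2 (norm_nonneg _) h2
  have hy0 : y = 0 := by
    have h1 := hdec y
    rw [← hwe, h0] at h1
    rw [hwe] at h1
    have h2 : ‖half F t ((y : ℂ) + x * I)‖ = ‖half F t (((-y : ℝ) : ℂ) + x * I)‖ := by
      have h3 : half F t ((y : ℂ) + x * I) = -(ε * conj (half F t (((-y : ℝ) : ℂ) + x * I))) := by
        linear_combination -h1
      rw [h3, norm_neg, norm_mul, hε1, one_mul, RCLike.norm_conj]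
    by_contra hne
    rcases lt_or_gt_of_ne hne with h3 | h3
    · have h4 := hstrict (-y) (by linarith)
      rw [neg_neg] at h4
      linarith
    · have h4 := hstrict y h3
      linarith
  refine ⟨hy0, fun hder => ?_⟩
  have hwx : w = ((0 : ℝ) : ℂ) + x * I := by rw [hwe, hy0]
  -- the derivative of the flow at the zero
  set Q : ℂ := ∫ v in Ioi (0 : ℝ), (gw t v : ℂ) * deriv (fun σ : ℝ => F (σ + x * I)) (0 + v) with hQ
  have hflowd : HasDerivAt (flow F t) 0 w := by
    have h1 := H.hasDeriv_int ht htB univ w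
    simp only [Measure.restrict_univ] at h1
    have h2 : HasDerivAt (flow F t) (∫ v : ℝ, (gw t v : ℂ) * deriv F (w + v)) w := h1
    rw [h2.deriv] at hder
    rw [hder] at h2
    exact h2
  have hline : HasDerivAt (fun s : ℝ => flow F t ((s : ℂ) + x * I)) 0 0 := by
    have h2 : HasDerivAt (fun σ : ℝ => (σ : ℂ) + x * I) 1 0 := by
      simpa using (Complex.ofRealCLM.hasDerivAt (x := (0 : ℝ))).add_const (x * I)
    have h1 : HasDerivAt (flow F t) 0 (((0 : ℝ) : ℂ) + x * I) := by rw [← hwx]; exact hflowd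
    have := h1.comp (0 : ℝ) h2
    rw [mul_one] at this
    exact this
  have hline2 : HasDerivAt (fun s : ℝ => flow F t ((s : ℂ) + x * I)) (Q - ε * conj Q) 0 := by
    have h1 := hhalfd 0
    have h2 : HasDerivAt (fun s : ℝ => half F t (((-s : ℝ) : ℂ) + x * I)) (-Q) 0 := by
      have h3 : HasDerivAt (fun s : ℝ => -s) (-1) (0 : ℝ) := hasDerivAt_neg 0
      have h4 : HasDerivAt (fun s : ℝ => half F t ((s : ℂ) + x * I)) Q (-(0 : ℝ)) := by
        rw [neg_zero]; exact h1
      have h5 := h4.scomp (0 : ℝ) h3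
      rw [neg_smul, one_smul] at h5
      exact h5
    have h6 : HasDerivAt (fun s : ℝ => conj (half F t (((-s : ℝ) : ℂ) + x * I))) (conj (-Q)) 0 := by
      have := h2.star
      exact this
    have h7 := h1.add (h6.const_mul ε)
    have e : Q + ε * conj (-Q) = Q - ε * conj Q := by rw [map_neg]; ring
    rw [e] at h7
    refine h7.congr_of_eventuallyEq (Eventually.of_forall fun s => ?_)
    exact hdec s
  have hQ0 : Q = ε * conj Q := by
    have := hline.unique hline2
    linear_combination -this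
  set P : ℂ := half F t (((0 : ℝ) : ℂ) + x * I) with hP
  have hP0 : P = -(ε * conj P) := by
    have h1 := hdec 0
    rw [neg_zero, ← hwx, h0, hwx] at h1
    linear_combination -h1
  have hpos := L.c1 (y := 0) hcond (by simp; exact hη.le)
  have hpos2 : 0 < (Q * conj P).re := by
    have e : P = ∫ v in Ioi (0 : ℝ), (gw t v : ℂ) * (fun σ : ℝ => F (σ + x * I)) (0 + v) := hhalf 0
    rw [e]; exact hpos
  have hrel : Q * conj P = -(conj (Q * conj P)) := by
    have hεε : ε * conj ε = 1 := by
      rw [Complex.mul_conj, Complex.normSq_eq_norm_sq, hε1]; norm_num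
    have h1 : conj P = -(conj ε * P) := by
      conv_lhs => rw [hP0]
      rw [map_neg, map_mul, Complex.conj_conj]
    calc Q * conj P = (ε * conj Q) * (-(conj ε * P)) := by rw [← hQ0, ← h1]
      _ = -((ε * conj ε) * (conj Q * P)) := by ring
      _ = -(conj (Q * conj P)) := by rw [hεε, one_mul, map_mul, Complex.conj_conj]
  have := congrArg Complex.re hrel
  rw [Complex.neg_re, Complex.conj_re] at this
  linarith

end Data

end Pool.Agent.KS6_29.HS
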