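import Mathlib
import Pool.Agent.KS6_29.HS.Main
import Pool.Graph.R_pool_sql_team_seeded_620a6dc7.Hp428.TD.Gam

/-!
# Completed L-functions with one gamma factor `Γ(s)` of `ℂ`
-/

set_option autoImplicit false

namespace Pool.Agent.KS6_29.HS

open Set Filter Topology Complex

open scoped ComplexConjugate

/-- the logarithmic derivative -/
theorem logDeriv_form {F L : ℂ → ℂ} {A c b : ℝ} {M : ℂ} (hb : 0 ≤ b) (hc : 1 ≤ c) (hM : M ≠ 0)
    (hL : ∀ w : ℂ, b < w.re → DifferentiableAt ℂ L w) (hL0 : ∀ w : ℂ, b < w.re → L w ≠ 0)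
    (eq : ∀ w : ℂ, b < w.re → F w = M * cexp (w * (Real.log A : ℝ)) * Gamma (c + w) * L w)
    {w : ℂ} (hw : b < w.re) :
    F w ≠ 0 ∧ logDeriv F w = (Real.log A : ℝ) + logDeriv Gamma (c + w) + logDeriv L w := by
  have hpos : 0 < ((c : ℂ) + w).re := by simp; linarith
  have hG0 : Gamma (c + w) ≠ 0 := Gamma_ne_zero_of_re_pos hpos
  have hGd : DifferentiableAt ℂ Gamma (c + w) := by
    apply differentiableAt_Gamma
    intro m h
    rw [h] at hpos
    simp at hpos
    have : (0 : ℝ) ≤ m := Nat.cast_nonneg m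
    linarith
  have hGc : DifferentiableAt ℂ (fun w : ℂ => Gamma (c + w)) w :=
    DifferentiableAt.comp w hGd (by fun_prop)
  have hE : DifferentiableAt ℂ (fun w : ℂ => M * cexp (w * (Real.log A : ℝ))) w := by fun_prop
  have hE0 : ∀ w : ℂ, M * cexp (w * (Real.log A : ℝ)) ≠ 0 := fun w => mul_ne_zero hM (exp_ne_zero _)
  constructor
  · rw [eq w hw]
    exact mul_ne_zero (mul_ne_zero (hE0 w) hG0) (hL0 w hw)
  · have hopen : {z : ℂ | b < z.re} ∈ 𝓝 w := (isOpen_lt continuous_const continuous_re).mem_nhds hw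
    have hev : F =ᶠ[𝓝 w] fun w => (M * cexp (w * (Real.log A : ℝ))) * Gamma (c + w) * L w := by
      filter_upwards [hopen] with z hz
      exact eq z hz
    have h1 : logDeriv F w = logDeriv (fun w => (M * cexp (w * (Real.log A : ℝ))) * Gamma (c + w) * L w) w := by
      rw [logDeriv_apply, logDeriv_apply, hev.deriv_eq, hev.eq_of_nhds]
    rw [h1, logDeriv_mul (f := fun w => (M * cexp (w * (Real.log A : ℝ))) * Gamma (c + w)) w
      (mul_ne_zero (hE0 w) hG0) (hL0 w hw) (hE.mul hGc) (hL w hw),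
      logDeriv_mul (f := fun w => M * cexp (w * (Real.log A : ℝ))) w (hE0 w) hG0 hE hGc]
    congr 2
    · rw [logDeriv_apply]
      have hd : HasDerivAt (fun w : ℂ => M * cexp (w * (Real.log A : ℝ)))
          (M * (cexp (w * (Real.log A : ℝ)) * (Real.log A : ℝ))) w := by
        have := ((hasDerivAt_id w).mul_const ((Real.log A : ℝ) : ℂ)).cexp.const_mul M
        simpa using this
      rw [hd.deriv]
      have := exp_ne_zero (w * (Real.log A : ℝ))
      field_simp
    · rw [logDeriv_apply, logDeriv_apply]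
      rw [deriv_comp_const_add]

theorem log_ratio {x y : ℝ} (hx : 0 < x) (hy : 0 < y) (h : y ≤ x + 1) (hx1 : 1 ≤ x) :
    Real.log y ≤ Real.log x + 1 := by
  have h1 : y ≤ 2 * x := by linarith
  have h2 := Real.log_le_log hy h1
  rw [Real.log_mul (by norm_num) hx.ne'] at h2
  have := Real.log_two_lt_d9
  linarith

/-- **The instance.** -/
theorem mk_data {F L : ℂ → ℂ} {A c a η K : ℝ} {M : ℂ} (ha : 1 / 2 ≤ a) (hη : 0 < η)
    (hη4 : η ≤ 1 / 4) (hA : 1 / 10 ≤ A) (hc : 1 ≤ c) (hK : 0 ≤ K) (hM : M ≠ 0)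
    (hL : ∀ w : ℂ, a - 2 * η < w.re → DifferentiableAt ℂ L w)
    (hL0 : ∀ w : ℂ, a - 2 * η < w.re → L w ≠ 0)
    (hL1 : ∀ w : ℂ, a - 2 * η < w.re → ‖logDeriv L w‖ ≤ K)
    (eq : ∀ w : ℂ, a - 2 * η < w.re →
      F w = M * cexp (w * (Real.log A : ℝ)) * Gamma (c + w) * L w)
    (diff : Differentiable ℂ F) (sym : ∃ ε : ℂ, ‖ε‖ = 1 ∧ ∀ w, F (-w) = ε * conj (F (conj w)))
    (growth : ∃ C : ℝ, 0 ≤ C ∧ ∀ w : ℂ, |w.re| ≤ a → ‖F w‖ ≤ C * Real.exp (C * |w.im|)) :
    Data F a η (2 * (6 + K) / η) ∧ ∀ x : ℝ, Real.log (A * (c + 1 + |x|)) - 6 - K ≤ Data.ell F a x := by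
  have hb : 0 ≤ a - 2 * η := by linarith
  have hA0 : 0 < A := by linarith
  have hform := fun (w : ℂ) (hw : a - 2 * η < w.re) =>
    logDeriv_form (F := F) (L := L) (A := A) (c := c) (M := M) hb hc hM hL hL0 eq (w := w) hw
  have hB : 48 + 8 * K ≤ 2 * (6 + K) / η := by
    rw [le_div_iff₀ hη]; nlinarith
  -- the gamma factor
  have hpsi : ∀ w : ℂ, a - 2 * η < w.re →
      ‖logDeriv Gamma (c + w) - (Real.log ‖w + (c + 2 : ℝ)‖ : ℝ)‖ ≤ 5 := by
    intro w hw
    have h1 := Pool.Agent.Hp428.TD.psi_le (u := c + w - 1) (by simp; linarith)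
    have e1 : 1 + ((c : ℂ) + w - 1) = c + w := by ring
    have e2 : (c : ℂ) + w - 1 + 3 = w + (c + 2 : ℝ) := by push_cast; ring
    rwa [e1, e2] at h1
  have hn3 : ∀ w : ℂ, a - 2 * η < w.re → 3 ≤ ‖w + (c + 2 : ℝ)‖ := by
    intro w hw
    refine le_trans ?_ (re_le_norm _)
    simp; linarith
  -- the main approximation
  have hmain : ∀ w : ℂ, a - 2 * η < w.re →
      ‖logDeriv F w - ((Real.log A + Real.log ‖w + (c + 2 : ℝ)‖ : ℝ) : ℂ)‖ ≤ 5 + K := by
    intro w hw
    rw [(hform w hw).2]
    have e : ((Real.log A : ℝ) : ℂ) + logDeriv Gamma (c + w) + logDeriv L w -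
        ((Real.log A + Real.log ‖w + (c + 2 : ℝ)‖ : ℝ) : ℂ) =
        (logDeriv Gamma (c + w) - (Real.log ‖w + (c + 2 : ℝ)‖ : ℝ)) + logDeriv L w := by
      push_cast; ring
    rw [e]
    exact (norm_add_le _ _).trans (add_le_add (hpsi w hw) (hL1 w hw))
  have hFd : ∀ w : ℂ, a - 2 * η < w.re → DifferentiableAt ℂ (logDeriv F) w := by
    intro w hw
    have h1 : DifferentiableAt ℂ (deriv F) w := ((diff.analyticAt w).deriv).differentiableAt
    exact h1.div (diff w) (hform w hw).1
  have hell : ∀ x : ℝ, Real.log A + Real.log ‖(a : ℂ) + x * I + (c + 2 : ℝ)‖ - 5 - K ≤ Data.ell F a x := by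
    intro x
    have h1 := hmain (a + x * I) (by simp; linarith)
    have h2 := (abs_le.1 ((abs_re_le_norm _).trans h1)).1
    rw [sub_re, ofReal_re] at h2
    unfold Data.ell
    linarith
  refine ⟨⟨ha, hη, hη4, by linarith, diff, sym, ?_, ?_, ?_, ?_, ?_, growth⟩, ?_⟩
  · intro w hw
    exact (hform w (by linarith)).1
  · intro w hw
    have h1 := hmain w (by linarith)
    have h2 := (abs_im_le_norm _).trans h1
    rw [sub_im, ofReal_im, sub_zero] at h2
    linarith
  · intro w hw
    have h1 := Complex.norm_deriv_le_of_forall_mem_sphere_norm_le (c := w) (R := η / 2)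
      (f := fun z => logDeriv F z - ((Real.log A + Real.log ‖w + (c + 2 : ℝ)‖ : ℝ) : ℂ))
      (C := 6 + K) (by positivity) (by
        apply DifferentiableOn.diffContOnCl
        rw [closure_ball _ (by positivity)]
        intro z hz
        have hz1 : ‖z - w‖ ≤ η / 2 := by simpa [dist_eq_norm] using hz
        have hz2 := (abs_le.1 ((abs_re_le_norm _).trans hz1)).1
        rw [sub_re] at hz2
        exact ((hFd z (by linarith)).sub_const _).differentiableWithinAt) (by
        intro z hz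
        have hz1 : ‖z - w‖ = η / 2 := by simpa [dist_eq_norm] using hz
        have hz2 := (abs_le.1 ((abs_re_le_norm _).trans hz1.le)).1
        rw [sub_re] at hz2
        have hzr : a - 2 * η < z.re := by linarith
        have h2 := hmain z hzr
        have n1 := hn3 z hzr
        have n2 := hn3 w (by linarith)
        have h3 : |Real.log ‖z + (c + 2 : ℝ)‖ - Real.log ‖w + (c + 2 : ℝ)‖| ≤ 1 := by
          have d1 : ‖z + (c + 2 : ℝ)‖ ≤ ‖w + (c + 2 : ℝ)‖ + 1 := by
            have := norm_add_le (w + (c + 2 : ℝ)) (z - w)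
            rw [hz1] at this
            have e : w + (c + 2 : ℝ) + (z - w) = z + (c + 2 : ℝ) := by ring
            rw [e] at this; linarith
          have d2 : ‖w + (c + 2 : ℝ)‖ ≤ ‖z + (c + 2 : ℝ)‖ + 1 := by
            have := norm_sub_le (z + (c + 2 : ℝ)) (z - w)
            rw [hz1] at this
            have e : z + (c + 2 : ℝ) - (z - w) = w + (c + 2 : ℝ) := by ring
            rw [e] at this; linarith
          have l1 := log_ratio (by linarith) (by linarith) d1 (by linarith)
          have l2 := log_ratio (by linarith) (by linarith) d2 (by linarith)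
          rw [abs_le]; constructor <;> linarith
        have e : logDeriv F z - ((Real.log A + Real.log ‖w + (c + 2 : ℝ)‖ : ℝ) : ℂ) =
            (logDeriv F z - ((Real.log A + Real.log ‖z + (c + 2 : ℝ)‖ : ℝ) : ℂ)) +
            ((Real.log ‖z + (c + 2 : ℝ)‖ - Real.log ‖w + (c + 2 : ℝ)‖ : ℝ) : ℂ) := by
          push_cast; ring
        rw [e]
        refine (norm_add_le _ _).trans ?_
        rw [Complex.norm_real, Real.norm_eq_abs]
        linarith)
    rw [deriv_sub_const] at h1
    refine h1.trans (le_of_eq ?_)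
    field_simp
  · intro w hw
    have h1 := hmain (a + w.im * I) (by simp; linarith)
    have h2 := hmain w (by linarith)
    have h3 := (abs_le.1 ((abs_re_le_norm _).trans h1)).2
    have h4 := (abs_le.1 ((abs_re_le_norm _).trans h2)).1
    rw [sub_re, ofReal_re] at h3 h4
    have n1 := hn3 (a + w.im * I) (by simp; linarith)
    have n2 := hn3 w (by linarith)
    have h5 : Real.log ‖(a : ℂ) + w.im * I + (c + 2 : ℝ)‖ ≤ Real.log ‖w + (c + 2 : ℝ)‖ + 1 := by
      refine log_ratio (by linarith) (by linarith) ?_ (by linarith)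
      have e : (a : ℂ) + w.im * I + (c + 2 : ℝ) = (w + (c + 2 : ℝ)) + ((a - w.re : ℝ) : ℂ) := by
        apply Complex.ext
        · simp; ring
        · simp
      by_cases hwa : w.re ≤ a
      · rw [e]
        refine (norm_add_le _ _).trans ?_
        rw [Complex.norm_real, Real.norm_eq_abs, abs_of_nonneg (by linarith)]
        linarith
      · push Not at hwa
        have : ‖(a : ℂ) + w.im * I + (c + 2 : ℝ)‖ ≤ ‖w + (c + 2 : ℝ)‖ := by
          apply (sq_le_sq₀ (norm_nonneg _) (norm_nonneg _)).1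
          rw [← normSq_eq_norm_sq, ← normSq_eq_norm_sq, normSq_apply, normSq_apply]
          simp
          nlinarith
        linarith
    linarith
  · intro x
    have h1 := hell x
    have n1 := hn3 (a + x * I) (by simp; linarith)
    have h2 : 0 ≤ Real.log ‖(a : ℂ) + x * I + (c + 2 : ℝ)‖ := Real.log_nonneg (by linarith)
    have h3 : -3 ≤ Real.log A := by
      have : Real.log (1 / 10) ≤ Real.log A := Real.log_le_log (by norm_num) hA
      have h4 : Real.log (1 / 10 : ℝ) = -Real.log 10 := by rw [one_div, Real.log_inv]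
      have h5 : Real.log 10 ≤ 3 := by
        rw [Real.log_le_iff_le_exp (by norm_num)]
        have h11 : (2.7 : ℝ) ≤ Real.exp 1 := by linarith [Real.exp_one_gt_d9]
        have h12 : Real.exp 3 = Real.exp 1 ^ 3 := by rw [← Real.exp_nat_mul]; norm_num
        rw [h12]
        calc (10 : ℝ) ≤ 2.7 ^ 3 := by norm_num
          _ ≤ Real.exp 1 ^ 3 := pow_le_pow_left₀ (by norm_num) h11 3
      linarith
    unfold Data.ell at h1
    linarith
  · intro x
    have h1 := hell x
    have n1 := hn3 (a + x * I) (by simp; linarith)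
    have h2 : (c + 1 + |x|) ≤ 2 * ‖(a : ℂ) + x * I + (c + 2 : ℝ)‖ := by
      have h3 : |x| ≤ ‖(a : ℂ) + x * I + (c + 2 : ℝ)‖ := by
        have := abs_im_le_norm ((a : ℂ) + x * I + (c + 2 : ℝ))
        simpa using this
      have h4 : a + (c + 2) ≤ ‖(a : ℂ) + x * I + (c + 2 : ℝ)‖ := by
        have := re_le_norm ((a : ℂ) + x * I + (c + 2 : ℝ))
        simpa using this
      linarith
    have h3 := Real.log_le_log (by positivity) h2
    rw [Real.log_mul (by norm_num) (by positivity)] at h3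
    rw [Real.log_mul hA0.ne' (by positivity)]
    have := Real.log_two_lt_d9
    linarith

end Pool.Agent.KS6_29.HS
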