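import Mathlib
import Pool.Agent.KS6_29.HF.Comp
import Pool.Agent.KS6_29.HS.Dir
import Pool.Agent.KS6_29.HS.Inst

/-!
# The completed L-functions of the twists of a newform
-/

set_option autoImplicit false

namespace Pool.Agent.KS6_29.HS

open Set Filter Topology Complex UpperHalfPlane MatrixGroups CongruenceSubgroup W388

open scoped ComplexConjugate

/-- the completed L-function of a twist of a newform of weight `k ≥ 2` -/
theorem newf_comp {N : ℕ} [NeZero N] {k : ℤ} (hk : 1 ≤ k)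
    {f : CuspForm (Gamma0 N : Subgroup (GL (Fin 2) ℝ)) k} {ε : ℝ} (hf : IsNewf N k f ε)
    (q : ℕ) [NeZero q] (χ : DirichletCharacter ℂ q) (hχ : χ.IsPrimitive) (hq : Nat.Coprime q N) :
    ∃ (Λ L : ℂ → ℂ) (w : ℂ), ‖w‖ = 1 ∧ Differentiable ℂ Λ ∧ Differentiable ℂ L ∧
      (∀ s, Λ (k - s) = w * conj (Λ (conj s))) ∧
      (∀ p q : ℝ, ∃ M : ℝ, ∀ s : ℂ, p ≤ s.re → s.re ≤ q → ‖Λ s‖ ≤ M) ∧
      (∀ s : ℂ, 1 < s.re → L s = ∑' n : ℕ, χ (n : ZMod q) * (lamf f n : ℂ) * (n : ℂ) ^ (-s)) ∧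
      (∀ s : ℂ, ((k : ℝ) + 1) / 2 < s.re → L (s - ((k : ℂ) - 1) / 2) =
        ∑' n : ℕ, χ (n : ZMod q) * (qExpansion 1 f).coeff n * (n : ℂ) ^ (-s)) ∧
      ∀ s : ℂ, 0 < s.re → Λ s = ((Real.sqrt N * q / (2 * Real.pi) : ℝ) : ℂ) ^ s * Complex.Gamma s *
        L (s - ((k : ℂ) - 1) / 2) := by
  have hN : 0 < N := Nat.pos_of_ne_zero (NeZero.ne N)
  have hq0 : 0 < q := Nat.pos_of_ne_zero (NeZero.ne q)
  have hH := heckeSeq_lamf hf
  have hR := p_rs N k hk f ε hf
  have hkr : (1 : ℝ) ≤ k := by exact_mod_cast hk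
  obtain ⟨A1, hA1, d1, d2, d3⟩ := p_dir N hN (lamf f) hH hR
  have hsum : ∀ (q : ℕ) [NeZero q] (χ : DirichletCharacter ℂ q) (s : ℂ), 1 < s.re →
      Summable (fun n : ℕ => ‖χ (n : ZMod q) * (lamf f n : ℂ) * (n : ℂ) ^ (-s)‖) := by
    intro q _ χ s hs
    exact (d3 q χ (fun s => ∑' n : ℕ, χ (n : ZMod q) * (lamf f n : ℂ) * (n : ℂ) ^ (-s))
      (fun _ _ => rfl)).1 s hs
  obtain ⟨L, hL, hLs⟩ := exists_twist Pool.Agent.W440.TW.t_twist Pool.Agent.W108.TW.t_mellin
    hk hf hsum q χ hχ hq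
  obtain ⟨w, hw, hrel⟩ := Pool.Agent.W440.TW.t_twist N k hk f ε hf q χ hχ hq
  obtain ⟨C, hC⟩ := coeff_bound f hk
  have hRp : 0 < Real.sqrt N * q := by
    have : 0 < Real.sqrt N := Real.sqrt_pos.mpr (by exact_mod_cast hN)
    have : (0 : ℝ) < q := by exact_mod_cast hq0
    positivity
  obtain ⟨Λ, h1, h2, h3, h4⟩ := HF.exists_comp hk hRp
    (b := fun n => χ (n : ZMod q) * (qExpansion 1 f).coeff n) (m := (k : ℝ) / 2) (C := C) (w := w)
    (by rw [coeff_zero f, mul_zero]) (by linarith)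
    (fun n hn => by
      rw [norm_mul]
      calc ‖χ (n : ZMod q)‖ * ‖(qExpansion 1 f).coeff n‖ ≤ 1 * ‖(qExpansion 1 f).coeff n‖ :=
            mul_le_mul_of_nonneg_right (χ.norm_le_one _) (norm_nonneg _)
        _ ≤ _ := by rw [one_mul]; exact hC n hn) hw hrel
  -- the Dirichlet series in the two normalisations
  have hser : ∀ s : ℂ, ((k : ℝ) + 1) / 2 < s.re → L (s - ((k : ℂ) - 1) / 2) =
      ∑' n : ℕ, χ (n : ZMod q) * (qExpansion 1 f).coeff n * (n : ℂ) ^ (-s) := by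
    intro s hs
    have hre : (s - ((k : ℂ) - 1) / 2).re = s.re - ((k : ℝ) - 1) / 2 := by
      have : ((k : ℂ) - 1) / 2 = ((((k : ℝ) - 1) / 2 : ℝ) : ℂ) := by push_cast; ring
      rw [this, sub_re, ofReal_re]
    rw [hLs _ (by rw [hre]; linarith)]
    refine tsum_congr fun n => ?_
    rcases Nat.eq_zero_or_pos n with rfl | hn
    · rw [coeff_zero f, hH.zero]; simp
    · have hn0 : (n : ℂ) ≠ 0 := by exact_mod_cast hn.ne'
      rw [W388.lamf_eq hf n hn.ne']
      have : (n : ℂ) ^ (-(s - ((k : ℂ) - 1) / 2)) =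
          (n : ℂ) ^ (((k : ℂ) - 1) / 2) * (n : ℂ) ^ (-s) := by
        rw [← Complex.cpow_add _ _ hn0]
        congr 1; ring
      rw [this]; ring
  have hA0 : 0 < Real.sqrt N * q / (2 * Real.pi) := by positivity
  set A : ℝ := Real.sqrt N * q / (2 * Real.pi) with hA
  have hAc : (A : ℂ) ≠ 0 := by exact_mod_cast hA0.ne'
  refine ⟨Λ, L, w, hw, h1, hL.diff, h2, h3, hLs, hser, ?_⟩
  -- the identity theorem
  have hopen : IsOpen {s : ℂ | 0 < s.re} := isOpen_lt continuous_const Complex.continuous_re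
  have hpre : IsPreconnected {s : ℂ | 0 < s.re} := (convex_halfSpace_re_gt 0).isPreconnected
  have hgd : ∀ s : ℂ, 0 < s.re → DifferentiableAt ℂ (fun s => (A : ℂ) ^ s * Complex.Gamma s *
      L (s - ((k : ℂ) - 1) / 2)) s := by
    intro s hs
    have g1 : DifferentiableAt ℂ (fun s : ℂ => (A : ℂ) ^ s) s :=
      DifferentiableAt.const_cpow (by fun_prop) (Or.inl hAc)
    have g2 : DifferentiableAt ℂ Complex.Gamma s := by
      apply Complex.differentiableAt_Gamma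
      intro m h
      rw [h] at hs
      simp at hs
      have : (0 : ℝ) ≤ m := Nat.cast_nonneg m
      linarith
    have g3 : DifferentiableAt ℂ (fun s => L (s - ((k : ℂ) - 1) / 2)) s :=
      (hL.diff _).comp s (by fun_prop)
    exact (g1.mul g2).mul g3
  have hfa : AnalyticOnNhd ℂ Λ {s : ℂ | 0 < s.re} := fun s _ => h1.analyticAt s
  have hga : AnalyticOnNhd ℂ (fun s => (A : ℂ) ^ s * Complex.Gamma s * L (s - ((k : ℂ) - 1) / 2))
      {s : ℂ | 0 < s.re} := by
    refine DifferentiableOn.analyticOnNhd (fun s hs => ?_) hopen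
    exact (hgd s hs).differentiableWithinAt
  set z0 : ℂ := (((k : ℝ) / 2 + 3 : ℝ) : ℂ) with hz0
  have hz0r : z0.re = (k : ℝ) / 2 + 3 := by rw [hz0, ofReal_re]
  have hz0m : z0 ∈ {s : ℂ | 0 < s.re} := by
    show 0 < z0.re
    rw [hz0r]; linarith
  have hev : Λ =ᶠ[𝓝 z0] fun s => (A : ℂ) ^ s * Complex.Gamma s * L (s - ((k : ℂ) - 1) / 2) := by
    have : {s : ℂ | (k : ℝ) / 2 + 1 < s.re} ∈ 𝓝 z0 :=
      (isOpen_lt continuous_const Complex.continuous_re).mem_nhds (by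
        show (k : ℝ) / 2 + 1 < z0.re
        rw [hz0r]; linarith)
    filter_upwards [this] with s hs
    have hs' : (k : ℝ) / 2 + 1 < s.re := hs
    rw [h4 s hs', hser s (by linarith)]
  intro s hs
  exact hfa.eqOn_of_preconnected_of_eventuallyEq hga hpre hz0m hev hs

/-- **The de Bruijn–Newman flow of the twists of a newform.** -/
theorem newf_zeros {δ : ℝ} (hδ : 0 < δ) (hδ1 : δ ≤ 1) {κ : ℝ} (hκ : 0 ≤ κ) : ∃ t₁ : ℝ, 0 < t₁ ∧
    ∀ (N : ℕ) [NeZero N] (k : ℤ), 2 ≤ k →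
    ∀ (f : CuspForm (Gamma0 N : Subgroup (GL (Fin 2) ℝ)) k) (ε : ℝ), IsNewf N k f ε →
    (∀ n : ℕ, ArithmeticFunction.vonMangoldt n * |cS N (lamf f) n| ≤
      2 * ArithmeticFunction.vonMangoldt n * (n : ℝ) ^ κ) →
    ∀ (q : ℕ) [NeZero q] (χ : DirichletCharacter ℂ q), χ.IsPrimitive → Nat.Coprime q N →
    ∃ Λ : ℂ → ℂ, Differentiable ℂ Λ ∧
      (∀ s : ℂ, ((k : ℝ) + 1) / 2 < s.re → Λ s =
        ((Real.sqrt N * q / (2 * Real.pi) : ℝ) : ℂ) ^ s * Complex.Gamma s *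
          ∑' n : ℕ, χ (n : ZMod q) * (qExpansion 1 f).coeff n * (n : ℂ) ^ (-s)) ∧
      (∃ w : ℂ, ‖w‖ = 1 ∧ ∀ s, Λ (k - s) = w * conj (Λ (conj s))) ∧
      ∀ t : ℝ, 0 < t → t ≤ t₁ → ∀ s : ℂ, flow Λ t s = 0 →
        1 + 2 * κ + δ ≤ t * Real.log (N * q ^ 2 * (k / 2 + 1 + |s.im|) ^ 2) →
        s.re = k / 2 ∧ deriv (flow Λ t) s ≠ 0 := by
  set η : ℝ := δ / 16 with hη
  have hη0 : 0 < η := by positivity
  have hη4 : η ≤ 1 / 4 := by rw [hη]; linarith
  set K : ℝ := KL η with hK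
  have hK0 : 0 ≤ K := KL_nonneg η
  set a : ℝ := 1 / 2 + κ + 3 * η with ha
  have ha2 : 1 / 2 ≤ a := by rw [ha]; linarith
  set B : ℝ := 2 * (6 + K) / η with hB
  have hT : 0 < Data.T1 a η B := by
    unfold Data.T1
    positivity
  refine ⟨min (Data.T1 a η B) (δ / (8 * (8 + K))), by positivity, ?_⟩
  intro N _ k hk f ε hf hcS q _ χ hχ hq
  have hN : 0 < N := Nat.pos_of_ne_zero (NeZero.ne N)
  have hN1 : (1 : ℝ) ≤ N := by exact_mod_cast hN
  have hq0 : 0 < q := Nat.pos_of_ne_zero (NeZero.ne q)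
  have hq1 : (1 : ℝ) ≤ q := by exact_mod_cast hq0
  have hkr : (2 : ℝ) ≤ k := by exact_mod_cast hk
  have hH := heckeSeq_lamf hf
  have hR := p_rs N k (by omega) f ε hf
  obtain ⟨Λ, L, w0, hw0, hΛ, hLd, hfe, hstrip, hLs, hser, hform⟩ := newf_comp (by omega) hf q χ hχ hq
  refine ⟨Λ, hΛ, fun s hs => ?_, ⟨w0, hw0, hfe⟩, ?_⟩
  · rw [hform s (by linarith), hser s hs]
  intro t ht ht1 s h0 hlog
  have htT : t ≤ Data.T1 a η B := ht1.trans (min_le_left _ _)
  have htK : t * (8 + K) ≤ δ / 8 := by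
    have := ht1.trans (min_le_right _ _)
    rw [le_div_iff₀ (by positivity)] at this
    linarith
  set A : ℝ := Real.sqrt N * q / (2 * Real.pi) with hA
  have hsN : 1 ≤ Real.sqrt N := Real.one_le_sqrt.2 hN1
  have hpi := Real.pi_pos
  have hpi4 := Real.pi_le_four
  have hA10 : 1 / 10 ≤ A := by
    rw [hA, le_div_iff₀ (by positivity)]
    nlinarith
  have hA0 : 0 < A := by linarith
  have hAc : (A : ℂ) ≠ 0 := by exact_mod_cast hA0.ne'
  have hlogA : ((Real.log A : ℝ) : ℂ) = Complex.log A := Complex.ofReal_log hA0.le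
  set F : ℂ → ℂ := fun w => Λ (k / 2 + w) with hF
  have hlogd : ∀ w : ℂ, a - 2 * η < w.re → L (w + 1 / 2) ≠ 0 ∧
      ‖deriv L (w + 1 / 2) / L (w + 1 / 2)‖ ≤ K := by
    intro w hw
    refine logd_le hN hH hR hκ hcS χ hLs hη0 ?_
    have : (w + 1 / 2 : ℂ).re = w.re + 1 / 2 := by simp
    rw [this]
    rw [ha] at hw; linarith
  have hderL : ∀ w : ℂ, HasDerivAt (fun w => L (w + 1 / 2)) (deriv L (w + 1 / 2)) w := by
    intro w
    exact (hLd (w + 1 / 2)).hasDerivAt.comp_add_const w (1 / 2)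
  obtain ⟨HD, hell⟩ := mk_data (F := F) (L := fun w => L (w + 1 / 2)) (A := A) (c := (k : ℝ) / 2)
    (a := a) (η := η) (K := K) (M := (A : ℂ) ^ ((k : ℂ) / 2)) ha2 hη0 hη4 hA10 (by linarith) hK0
    (by rw [Complex.cpow_def_of_ne_zero hAc]; exact Complex.exp_ne_zero _)
    (fun w _ => (hderL w).differentiableAt) (fun w hw => (hlogd w hw).1) (fun w hw => by
      rw [logDeriv_apply, (hderL w).deriv]
      exact (hlogd w hw).2) (fun w hw => by
      have hw0' : 0 < ((k : ℂ) / 2 + w).re := by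
        have : ((k : ℂ) / 2 + w).re = (k : ℝ) / 2 + w.re := by
          have e : (k : ℂ) / 2 = (((k : ℝ) / 2 : ℝ) : ℂ) := by push_cast; ring
          rw [e, add_re, ofReal_re]
        rw [this]
        rw [ha] at hw; linarith
      rw [hF]
      simp only
      rw [hform _ hw0', Complex.cpow_add _ _ hAc]
      have e1 : (k : ℂ) / 2 + w - ((k : ℂ) - 1) / 2 = w + 1 / 2 := by ring
      have e2 : (A : ℂ) ^ w = cexp (w * (Real.log A : ℝ)) := by
        rw [Complex.cpow_def_of_ne_zero hAc, hlogA, mul_comm]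
      rw [e1, e2]
      push_cast
      ring) (hΛ.comp (by fun_prop)) ⟨w0, hw0, fun w => by
        rw [hF]
        simp only
        have e1 : (k : ℂ) / 2 + -w = k - (k / 2 + w) := by ring
        have e2 : conj ((k : ℂ) / 2 + w) = k / 2 + conj w := by
          rw [map_add]
          congr 1
          have e : (k : ℂ) / 2 = (((k : ℝ) / 2 : ℝ) : ℂ) := by push_cast; ring
          rw [e, Complex.conj_ofReal]
        rw [e1, hfe, e2]⟩ (by
        obtain ⟨M, hM⟩ := hstrip ((k : ℝ) / 2 - a) ((k : ℝ) / 2 + a)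
        refine ⟨|M|, abs_nonneg _, fun w hw => ?_⟩
        have hre : ((k : ℂ) / 2 + w).re = (k : ℝ) / 2 + w.re := by
          have e : (k : ℂ) / 2 = (((k : ℝ) / 2 : ℝ) : ℂ) := by push_cast; ring
          rw [e, add_re, ofReal_re]
        obtain ⟨h1, h2⟩ := abs_le.1 hw
        have h3 := hM ((k : ℂ) / 2 + w) (by rw [hre]; linarith) (by rw [hre]; linarith)
        refine (h3.trans (le_abs_self M)).trans ?_
        have : 1 ≤ Real.exp (|M| * |w.im|) := Real.one_le_exp (by positivity)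
        nlinarith [abs_nonneg M])
  -- the flow
  have hflow : ∀ w : ℂ, flow F t w = flow Λ t (k / 2 + w) := by
    intro w
    unfold flow
    refine MeasureTheory.integral_congr_ae (Eventually.of_forall fun v => ?_)
    simp only [hF]
    congr 2
    ring
  set w : ℂ := s - k / 2 with hw
  have hsw : (k : ℂ) / 2 + w = s := by rw [hw]; ring
  have hwre : w.re = s.re - k / 2 := by
    have e : (k : ℂ) / 2 = (((k : ℝ) / 2 : ℝ) : ℂ) := by push_cast; ring
    rw [hw, e, sub_re, ofReal_re]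
  have hwim : w.im = s.im := by
    have e : (k : ℂ) / 2 = (((k : ℝ) / 2 : ℝ) : ℂ) := by push_cast; ring
    rw [hw, e, sub_im, ofReal_im, sub_zero]
  have h0' : flow F t w = 0 := by rw [hflow, hsw]; exact h0
  have hcond : a + 3 * η ≤ t * Data.ell F a w.im := by
    have h1 := hell w.im
    rw [hwim] at h1 ⊢
    set X : ℝ := (k : ℝ) / 2 + 1 + |s.im| with hX
    have hX0 : 0 < X := by positivity
    have h2 : Real.log (N * q ^ 2 * X ^ 2) = 2 * Real.log (A * X) + 2 * Real.log (2 * Real.pi) := by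
      have e : (N : ℝ) * q ^ 2 * X ^ 2 = (A * X) ^ 2 * (2 * Real.pi) ^ 2 := by
        rw [hA]
        have : Real.sqrt N ^ 2 = N := Real.sq_sqrt (by linarith)
        field_simp
        rw [this]
      rw [e, Real.log_mul (by positivity) (by positivity), Real.log_pow, Real.log_pow]
      push_cast; ring
    have h3 : Real.log (2 * Real.pi) ≤ 2 := by
      rw [Real.log_le_iff_le_exp (by positivity)]
      have h11 : (2.7 : ℝ) ≤ Real.exp 1 := by linarith [Real.exp_one_gt_d9]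
      have h12 : Real.exp 2 = Real.exp 1 ^ 2 := by rw [← Real.exp_nat_mul]; norm_num
      rw [h12]
      calc 2 * Real.pi ≤ 2 * 3.15 := by linarith [Real.pi_lt_d2]
        _ ≤ 2.7 ^ 2 := by norm_num
        _ ≤ Real.exp 1 ^ 2 := pow_le_pow_left₀ (by norm_num) h11 2
    have h4 : Real.log (N * q ^ 2 * X ^ 2) / 2 - (8 + K) ≤ Data.ell F a s.im := by
      rw [h2]; linarith
    have h5 := mul_le_mul_of_nonneg_left h4 ht.le
    rw [h2] at hlog
    rw [h2] at h5
    have h6 : t * (2 * Real.log (A * X) + 2 * Real.log (2 * Real.pi)) / 2 - t * (8 + K) ≤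
        t * Data.ell F a s.im := by
      refine le_trans (le_of_eq ?_) h5
      ring
    rw [ha, hη] at *
    linarith
  obtain ⟨r1, r2⟩ := HD.zeros ht htT hcond h0'
  refine ⟨by rw [hwre] at r1; linarith, ?_⟩
  intro hd
  apply r2
  have e : flow F t = fun w => flow Λ t (k / 2 + w) := funext hflow
  rw [e, deriv_comp_const_add, hsw, hd]

end Pool.Agent.KS6_29.HS
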